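import Mathlib.Algebra.BigOperators.Group.Finset.Basic
import Mathlib.Algebra.BigOperators.Group.Finset.Indicator
import Mathlib.Algebra.Order.BigOperators.Group.Finset
import Mathlib.Algebra.Order.Ring.Int
import Mathlib.Algebra.Order.Ring.Abs
import Mathlib.Algebra.BigOperators.Ring.Finset
import Mathlib.Data.Fintype.BigOperators
import Mathlib.Tactic.Linarith
import Mathlib.Tactic.Ring

/-!
# Integer charges
-/

set_option autoImplicit false

namespace Pool.Agent.Helper57.RG

open Classical Finset

variable {V : Type} [Fintype V]

/-- The total charge of a set. -/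
noncomputable def chg (q : V → ℤ) (X : Set V) : ℤ := ∑ v : V, if v ∈ X then q v else 0

theorem chg_union (q : V → ℤ) {X Y : Set V} (h : Disjoint X Y) :
    chg q (X ∪ Y) = chg q X + chg q Y := by
  unfold chg
  rw [← Finset.sum_add_distrib]
  refine Finset.sum_congr rfl fun v _ => ?_
  by_cases hX : v ∈ X
  · have hY : v ∉ Y := fun hY => Set.disjoint_left.1 h hX hY
    simp [hX, hY]
  · simp [hX]

theorem chg_single (U : V) (X : Set V) :
    chg (fun v => if v = U then 1 else 0) X = if U ∈ X then 1 else 0 := by
  unfold chg
  have h : ∀ v : V, (if v ∈ X then (if v = U then (1 : ℤ) else 0) else 0)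
      = if v = U then (if U ∈ X then 1 else 0) else 0 := by
    intro v
    by_cases hv : v = U
    · subst hv
      simp
    · simp [hv]
  rw [Finset.sum_congr rfl fun v _ => h v]
  simp

theorem chg_add (p q : V → ℤ) (X : Set V) :
    chg (fun v => p v + q v) X = chg p X + chg q X := by
  unfold chg
  rw [← Finset.sum_add_distrib]
  refine Finset.sum_congr rfl fun v _ => ?_
  by_cases hX : v ∈ X <;> simp [hX]

theorem chg_mul (c : ℤ) (q : V → ℤ) (X : Set V) :
    chg (fun v => c * q v) X = c * chg q X := by
  unfold chg
  rw [Finset.mul_sum]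
  refine Finset.sum_congr rfl fun v _ => ?_
  by_cases hX : v ∈ X <;> simp [hX]

theorem chg_abs_le (q : V → ℤ) (X : Set V) : |chg q X| ≤ ∑ v : V, |q v| := by
  unfold chg
  refine (Finset.abs_sum_le_sum_abs _ _).trans (Finset.sum_le_sum fun v _ => ?_)
  by_cases hX : v ∈ X
  · simp [hX]
  · simp [hX]

/-- Finitely many charges can be replaced by one: a set has charge zero for it if and only if it
has charge zero for all of them. -/
theorem exists_charge (S : List (V → ℤ)) :
    ∃ q : V → ℤ, ∀ X : Set V, chg q X = 0 ↔ ∀ w ∈ S, chg w X = 0 := by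
  induction S with
  | nil =>
    refine ⟨fun _ => 0, fun X => ?_⟩
    simp [chg]
  | cons w S ih =>
    obtain ⟨q, hq⟩ := ih
    set M : ℤ := ∑ v : V, |q v| with hM
    have hM0 : 0 ≤ M := Finset.sum_nonneg fun v _ => abs_nonneg _
    refine ⟨fun v => (M + 1) * w v + q v, fun X => ?_⟩
    rw [chg_add, chg_mul]
    have hb : |chg q X| ≤ M := chg_abs_le q X
    constructor
    · intro h
      have hw : chg w X = 0 := by
        by_contra hne
        have h1 : 1 ≤ |chg w X| := Int.one_le_abs hne
        have h2 : |(M + 1) * chg w X| = |chg q X| := by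
          have h3 : (M + 1) * chg w X = -chg q X := by linarith
          rw [h3, abs_neg]
        rw [abs_mul, abs_of_nonneg (by linarith : (0 : ℤ) ≤ M + 1)] at h2
        nlinarith
      have hq0 : chg q X = 0 := by
        rw [hw, mul_zero, zero_add] at h
        exact h
      intro u hu
      rcases List.mem_cons.1 hu with rfl | hu
      · exact hw
      · exact (hq X).1 hq0 u hu
    · intro h
      have hw : chg w X = 0 := h w (List.mem_cons_self)
      have hq0 : chg q X = 0 := (hq X).2 fun u hu => h u (List.mem_cons_of_mem _ hu)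
      rw [hw, hq0]
      ring

end Pool.Agent.Helper57.RG
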