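import Mathlib.Order.Lattice

/-!
# Lattice terms
-/

set_option autoImplicit false

universe u

namespace Pool.Agent.Helper57.RG

/-- Lattice terms in the variables `x₀, x₁, x₂, …`. -/
inductive LTerm : Type
  | var : ℕ → LTerm
  | join : LTerm → LTerm → LTerm
  | meet : LTerm → LTerm → LTerm

/-- The value of a lattice term under an assignment of elements of `L` to the variables. -/
def LTerm.eval {L : Type u} [Lattice L] (v : ℕ → L) : LTerm → L
  | .var n => v n
  | .join a b => a.eval v ⊔ b.eval v
  | .meet a b => a.eval v ⊓ b.eval v

end Pool.Agent.Helper57.RG
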