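import Mathlib.Combinatorics.SimpleGraph.Connectivity.Connected
import Pool.Agent.Helper57.RG.Terms

/-!
# The lattice `R(G)` of the regular closed sets of connected vertex sets of a graph
-/

set_option autoImplicit false

universe u

namespace Pool.Agent.Helper57.RG

variable {V : Type u}

/-- `so(G)`: the nonempty sets of vertices which induce a connected subgraph of `G`. -/
def So (G : SimpleGraph V) : Type u := {X : Set V // X.Nonempty ∧ (G.induce X).Connected}

/-- A family `a ⊆ so(G)` is closed if for all disjoint `X, Y ∈ a` with `X ∪ Y ∈ so(G)` also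
`X ∪ Y ∈ a`. -/
def IsClosedFamily (G : SimpleGraph V) (a : Set (So G)) : Prop :=
  ∀ X ∈ a, ∀ Y ∈ a, Disjoint X.1 Y.1 → ∀ Z : So G, Z.1 = X.1 ∪ Y.1 → Z ∈ a

/-- `cl(a)`: the least closed family which contains `a`. -/
def cl (G : SimpleGraph V) (a : Set (So G)) : Set (So G) :=
  {Z | ∀ b : Set (So G), IsClosedFamily G b → a ⊆ b → Z ∈ b}

/-- The interior of `a`: the complement of the closure of the complement of `a`. -/
def interior (G : SimpleGraph V) (a : Set (So G)) : Set (So G) := (cl G aᶜ)ᶜ

/-- `R(G)`: the regular closed families, that is, the families `a` with `a = cl (interior a)`. -/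
def R (G : SimpleGraph V) : Type u := {a : Set (So G) // a = cl G (interior G a)}

variable (G : SimpleGraph V)

theorem sub_cl (a : Set (So G)) : a ⊆ cl G a := fun _ hX _ _ hab => hab hX

theorem cl_closed (a : Set (So G)) : IsClosedFamily G (cl G a) :=
  fun X hX Y hY hd Z hZ b hb hab => hb X (hX b hb hab) Y (hY b hb hab) hd Z hZ

theorem cl_sub {a b : Set (So G)} (hb : IsClosedFamily G b) (h : a ⊆ b) : cl G a ⊆ b :=
  fun _ hX => hX b hb h

theorem cl_mono {a b : Set (So G)} (h : a ⊆ b) : cl G a ⊆ cl G b :=
  cl_sub G (cl_closed G b) (h.trans (sub_cl G b))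

theorem cl_idem (a : Set (So G)) : cl G (cl G a) = cl G a :=
  Set.Subset.antisymm (cl_sub G (cl_closed G a) (Set.Subset.refl _)) (sub_cl G _)

theorem cl_of_closed {a : Set (So G)} (h : IsClosedFamily G a) : cl G a = a :=
  Set.Subset.antisymm (cl_sub G h (Set.Subset.refl _)) (sub_cl G _)

/-- The empty family is closed: `so(G)` with `cl` is a closure space. -/
theorem cl_empty : cl G ∅ = ∅ := cl_of_closed G (fun _ h => h.elim)

theorem interior_sub (a : Set (So G)) : interior G a ⊆ a := by
  intro X hX
  by_contra h
  exact hX (sub_cl G _ h)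

theorem interior_mono {a b : Set (So G)} (h : a ⊆ b) : interior G a ⊆ interior G b :=
  Set.compl_subset_compl.2 (cl_mono G (Set.compl_subset_compl.2 h))

theorem interior_idem (a : Set (So G)) : interior G (interior G a) = interior G a := by
  unfold interior
  rw [compl_compl, cl_idem]

theorem reg_cl_interior (a : Set (So G)) :
    cl G (interior G a) = cl G (interior G (cl G (interior G a))) := by
  apply Set.Subset.antisymm
  · apply cl_mono
    conv_lhs => rw [← interior_idem]
    exact interior_mono G (sub_cl G _)
  · have h := cl_mono G (interior_sub G (cl G (interior G a)))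
    rwa [cl_idem] at h

theorem reg_cl_union {a b : Set (So G)} (ha : a = cl G (interior G a))
    (hb : b = cl G (interior G b)) : cl G (a ∪ b) = cl G (interior G (cl G (a ∪ b))) := by
  apply Set.Subset.antisymm
  · have h1 : a ∪ b ⊆ cl G (interior G (cl G (a ∪ b))) := by
      apply Set.union_subset
      · have h2 : cl G (interior G a) ⊆ cl G (interior G (cl G (a ∪ b))) :=
          cl_mono G (interior_mono G (Set.subset_union_left.trans (sub_cl G _)))
        rwa [← ha] at h2
      · have h2 : cl G (interior G b) ⊆ cl G (interior G (cl G (a ∪ b))) :=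
          cl_mono G (interior_mono G (Set.subset_union_right.trans (sub_cl G _)))
        rwa [← hb] at h2
    have h3 := cl_mono G h1
    rwa [cl_idem] at h3
  · have h := cl_mono G (interior_sub G (cl G (a ∪ b)))
    rwa [cl_idem] at h

theorem reg_closed {a : Set (So G)} (ha : a = cl G (interior G a)) : cl G a = a := by
  conv_lhs => rw [ha]
  rw [cl_idem, ← ha]

/-- The regular closed families are ordered by inclusion. -/
instance : PartialOrder (R G) := Subtype.partialOrder _

/-- The lattice of the regular closed families, ordered by inclusion. -/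
instance : Lattice (R G) where
  sup a b := ⟨cl G (a.1 ∪ b.1), reg_cl_union G a.2 b.2⟩
  inf a b := ⟨cl G (interior G (a.1 ∩ b.1)), reg_cl_interior G _⟩
  le_sup_left a b := show a.1 ⊆ cl G (a.1 ∪ b.1) from
    Set.subset_union_left.trans (sub_cl G _)
  le_sup_right a b := show b.1 ⊆ cl G (a.1 ∪ b.1) from
    Set.subset_union_right.trans (sub_cl G _)
  sup_le a b c hac hbc := show cl G (a.1 ∪ b.1) ⊆ c.1 by
    have h := cl_mono G (Set.union_subset (show a.1 ⊆ c.1 from hac) (show b.1 ⊆ c.1 from hbc))
    rwa [reg_closed G c.2] at h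
  inf_le_left a b := show cl G (interior G (a.1 ∩ b.1)) ⊆ a.1 by
    have h := cl_mono G ((interior_sub G (a.1 ∩ b.1)).trans Set.inter_subset_left)
    rwa [reg_closed G a.2] at h
  inf_le_right a b := show cl G (interior G (a.1 ∩ b.1)) ⊆ b.1 by
    have h := cl_mono G ((interior_sub G (a.1 ∩ b.1)).trans Set.inter_subset_right)
    rwa [reg_closed G b.2] at h
  le_inf a b c hab hac := show a.1 ⊆ cl G (interior G (b.1 ∩ c.1)) by
    have h := cl_mono G (interior_mono G
      (Set.subset_inter (show a.1 ⊆ b.1 from hab) (show a.1 ⊆ c.1 from hac)))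
    rwa [← a.2] at h

end Pool.Agent.Helper57.RG
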