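import Mathlib.Order.Lattice
import Mathlib.Order.BoundedOrder.Lattice
import Mathlib.Order.PropInstances
import Mathlib.Order.GaloisConnection.Basic
import Mathlib.Order.ConditionallyCompleteLattice.Basic
import Mathlib.Logic.Relation
import Mathlib.Data.Finite.Prod
import Mathlib.Data.Finite.Sum
import Mathlib.Data.Sum.Order
import Mathlib.Data.Set.Finite.Basic
import Mathlib.Data.Set.Finite.Lattice
import Mathlib.Order.Preorder.Finite
import Mathlib.Tactic.Tauto
import Pool.Agent.Helper57.RG.Terms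

/-!
# Good measures on posets and lattices obtained by doublings

The material of this file (good measures on posets, doubling of intervals, all identities fail in
the resulting lattices) is taken over from the library module
`Results/MP_5c7113_al/NoLatticeIdentity`, which proves that the extended permutohedra of finite
posets satisfy no nontrivial lattice identity.
-/

set_option autoImplicit false
set_option linter.unusedSectionVars false

universe u

namespace Pool.Agent.Helper57.RG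

theorem tlift {α β : Type*} {r : α → α → Prop} {s : β → β → Prop} (f : α → β)
    (h : ∀ a b, r a b → s (f a) (f b)) {x y : α} (hxy : Relation.TransGen r x y) :
    Relation.TransGen s (f x) (f y) := by
  induction hxy with
  | single h1 => exact Relation.TransGen.single (h _ _ h1)
  | tail _ h2 ih => exact Relation.TransGen.tail ih (h _ _ h2)

/-! ### Good measures -/

section Measures

open Relation

/-- Good measures on a poset with values in a lattice. -/
structure Good (L : Type) [Lattice L] [OrderBot L] (E : Type) [PartialOrder E]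
    (μ : E → E → L) : Prop where
  refl : ∀ x, μ x x = ⊥
  right : ∀ x y z, x ≤ y → y ≤ z → μ y z ≤ μ x z
  tri : ∀ x y z, x ≤ y → y ≤ z → μ x z ≤ μ x y ⊔ μ y z
  ref : ∀ x y, x < y → ∀ u v, μ x y ≤ u ⊔ v →
    TransGen (fun s t => s < t ∧ (μ s t ≤ u ∨ μ s t ≤ v)) x y

/-- `g` is a value of a good measure on a finite poset. -/
def Rz (L : Type) [Lattice L] [OrderBot L] (g : L) : Prop :=
  ∃ (E : Type) (_ : PartialOrder E) (_ : Finite E) (μ : E → E → L) (x y : E),
    Good L E μ ∧ x < y ∧ μ x y = g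

/-- `g` is a strict value of a good measure on a finite poset. -/
def SRz (L : Type) [Lattice L] [OrderBot L] (g : L) : Prop :=
  ∃ (E : Type) (_ : PartialOrder E) (_ : Finite E) (μ : E → E → L) (x y : E),
    Good L E μ ∧ x < y ∧ μ x y = g ∧ ∀ w, x < w → w < y → μ w y < g

theorem chain_mem {E : Type} [PartialOrder E] {P : E → E → Prop} {x y : E}
    (h : TransGen (fun s t => s < t ∧ P s t) x y) :
    TransGen (fun s t => x ≤ s ∧ s < t ∧ t ≤ y ∧ P s t) x y := by
  have hlt : ∀ {b}, TransGen (fun s t => s < t ∧ P s t) x b → x < b := by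
    intro b hb
    induction hb with
    | single h1 => exact h1.1
    | tail _ h2 ih => exact ih.trans h2.1
  induction h with
  | single h1 => exact TransGen.single ⟨le_refl _, h1.1, le_refl _, h1.2⟩
  | tail h1 h2 ih =>
    refine TransGen.tail (tlift id ?_ ih) ⟨(hlt h1).le, h2.1, le_refl _, h2.2⟩
    rintro s t ⟨h3, h4, h5, h6⟩
    exact ⟨h3, h4, h5.trans h2.1.le, h6⟩

/-- The two-element chain with the value `⊥`. -/
theorem rz_bot (L : Type) [Lattice L] [OrderBot L] : Rz L ⊥ := by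
  refine ⟨Bool, inferInstance, inferInstance, fun _ _ => ⊥, false, true, ?_, by decide, rfl⟩
  refine ⟨fun _ => rfl, fun _ _ _ _ _ => le_refl _, fun _ _ _ _ _ => bot_le, ?_⟩
  intro x y hxy u v _
  exact TransGen.single ⟨hxy, Or.inl bot_le⟩

theorem good_prod {L : Type} [Lattice L] [OrderBot L] {E F : Type} [PartialOrder E]
    [PartialOrder F] {μ : E → E → L} {ν : F → F → L} (hμ : Good L E μ) (hν : Good L F ν) :
    Good L (E × F) (fun p q => μ p.1 q.1 ⊔ ν p.2 q.2) := by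
  refine ⟨?_, ?_, ?_, ?_⟩
  · intro x
    show μ x.1 x.1 ⊔ ν x.2 x.2 = ⊥
    rw [hμ.refl, hν.refl, sup_idem]
  · intro x y z hxy hyz
    exact sup_le_sup (hμ.right _ _ _ hxy.1 hyz.1) (hν.right _ _ _ hxy.2 hyz.2)
  · intro x y z hxy hyz
    calc μ x.1 z.1 ⊔ ν x.2 z.2 ≤ (μ x.1 y.1 ⊔ μ y.1 z.1) ⊔ (ν x.2 y.2 ⊔ ν y.2 z.2) :=
          sup_le_sup (hμ.tri _ _ _ hxy.1 hyz.1) (hν.tri _ _ _ hxy.2 hyz.2)
      _ = _ := sup_sup_sup_comm _ _ _ _
  · rintro ⟨x, x'⟩ ⟨y, y'⟩ hxy u v h
    have hle := hxy.le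
    have h1 : μ x y ≤ u ⊔ v := le_sup_left.trans h
    have h2 : ν x' y' ≤ u ⊔ v := le_sup_right.trans h
    have c1 : x < y → TransGen (fun s t : E × F => s < t ∧
        (μ s.1 t.1 ⊔ ν s.2 t.2 ≤ u ∨ μ s.1 t.1 ⊔ ν s.2 t.2 ≤ v)) (x, x') (y, x') := by
      intro hlt
      refine tlift (fun t => (t, x')) ?_ (hμ.ref x y hlt u v h1)
      rintro s t ⟨h3, h4⟩
      refine ⟨Prod.mk_lt_mk_of_lt_of_le h3 (le_refl _), ?_⟩
      show μ s t ⊔ ν x' x' ≤ u ∨ μ s t ⊔ ν x' x' ≤ v
      rw [hν.refl, sup_bot_eq]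
      exact h4
    have c2 : x' < y' → TransGen (fun s t : E × F => s < t ∧
        (μ s.1 t.1 ⊔ ν s.2 t.2 ≤ u ∨ μ s.1 t.1 ⊔ ν s.2 t.2 ≤ v)) (y, x') (y, y') := by
      intro hlt
      refine tlift (fun t => (y, t)) ?_ (hν.ref x' y' hlt u v h2)
      rintro s t ⟨h3, h4⟩
      refine ⟨Prod.mk_lt_mk_of_le_of_lt (le_refl _) h3, ?_⟩
      show μ y y ⊔ ν s t ≤ u ∨ μ y y ⊔ ν s t ≤ v
      rw [hμ.refl, bot_sup_eq]
      exact h4
    rcases eq_or_lt_of_le hle.1 with h5 | h5
    · simp only at h5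
      subst h5
      rcases eq_or_lt_of_le hle.2 with h6 | h6
      · simp only at h6
        subst h6
        exact absurd hxy (lt_irrefl _)
      · exact c2 h6
    · rcases eq_or_lt_of_le hle.2 with h6 | h6
      · simp only at h6
        subst h6
        exact c1 h5
      · exact (c1 h5).trans (c2 h6)

theorem rz_sup {L : Type} [Lattice L] [OrderBot L] {g h : L} (hg : Rz L g) (hh : Rz L h) :
    Rz L (g ⊔ h) := by
  obtain ⟨E, _, _, μ, x, y, hμ, hxy, rfl⟩ := hg
  obtain ⟨F, _, _, ν, x', y', hν, hxy', rfl⟩ := hh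
  exact ⟨E × F, inferInstance, inferInstance, _, (x, x'), (y, y'), good_prod hμ hν,
    Prod.mk_lt_mk_of_lt_of_le hxy hxy'.le, rfl⟩

/-- Transfer of good measures along a lower adjoint. -/
theorem good_map {L M : Type} [Lattice L] [OrderBot L] [Lattice M] [OrderBot M] {σ : L → M}
    {π : M → L} (hσ : ∀ c m, σ c ≤ m ↔ c ≤ π m) (hπ : ∀ m n, π (m ⊔ n) = π m ⊔ π n)
    {E : Type} [PartialOrder E] {μ : E → E → L} (hμ : Good L E μ) :
    Good M E (fun x y => σ (μ x y)) := by
  have hmono : ∀ {c d}, c ≤ d → σ c ≤ σ d := by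
    intro c d h
    rw [hσ]
    exact h.trans ((hσ d (σ d)).1 (le_refl _))
  have hsup : ∀ c d, σ (c ⊔ d) ≤ σ c ⊔ σ d := by
    intro c d
    rw [hσ, hπ]
    exact sup_le_sup ((hσ _ _).1 (le_refl _)) ((hσ _ _).1 (le_refl _))
  refine ⟨?_, ?_, ?_, ?_⟩
  · intro x
    show σ (μ x x) = ⊥
    rw [hμ.refl, eq_bot_iff, hσ]
    exact bot_le
  · intro x y z hxy hyz
    exact hmono (hμ.right x y z hxy hyz)
  · intro x y z hxy hyz
    exact (hmono (hμ.tri x y z hxy hyz)).trans (hsup _ _)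
  · intro x y hxy u v h
    have h1 : μ x y ≤ π u ⊔ π v := by
      rw [← hπ]
      exact (hσ _ _).1 h
    refine tlift id ?_ (hμ.ref x y hxy _ _ h1)
    rintro s t ⟨h2, h3 | h3⟩
    · exact ⟨h2, Or.inl ((hσ _ _).2 h3)⟩
    · exact ⟨h2, Or.inr ((hσ _ _).2 h3)⟩

theorem srz_map {L M : Type} [Lattice L] [OrderBot L] [Lattice M] [OrderBot M] {σ : L → M}
    {π : M → L} (hσ : ∀ c m, σ c ≤ m ↔ c ≤ π m) (hπ : ∀ m n, π (m ⊔ n) = π m ⊔ π n)
    (hπσ : ∀ c, π (σ c) = c) {g : L} (hg : SRz L g) : SRz M (σ g) := by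
  obtain ⟨E, _, _, μ, x, y, hμ, hxy, rfl, hs⟩ := hg
  refine ⟨E, inferInstance, inferInstance, _, x, y, good_map hσ hπ hμ, hxy, rfl, ?_⟩
  intro w h1 h2
  have h3 := hs w h1 h2
  refine lt_of_le_not_ge ?_ ?_
  · rw [hσ, hπσ]
    exact h3.le
  · intro h4
    rw [hσ, hπσ] at h4
    exact absurd h3 (not_lt_of_ge h4)

/-- The lattices all of whose elements are determined by the strict values below them. -/
def KK (L : Type) [Lattice L] [OrderBot L] : Prop :=
  ∀ c d : L, ¬ c ≤ d → ∃ g, SRz L g ∧ g ≤ c ∧ ¬ g ≤ d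

theorem rz_of_srz {L : Type} [Lattice L] [OrderBot L] {g : L} (h : SRz L g) : Rz L g := by
  obtain ⟨E, h1, h2, μ, x, y, hμ, hxy, hg, _⟩ := h
  exact ⟨E, h1, h2, μ, x, y, hμ, hxy, hg⟩

theorem rz_all {L : Type} [Lattice L] [OrderBot L] [Finite L] (hK : KK L) (a : L) : Rz L a := by
  obtain ⟨m, hm⟩ := (Set.toFinite {s : L | s ≤ a ∧ Rz L s}).exists_maximal ⟨⊥, bot_le, rz_bot L⟩
  have hma : a ≤ m := by
    by_contra hn
    obtain ⟨g, hg1, hg2, hg3⟩ := hK a m hn
    have h1 : m ⊔ g ∈ {s : L | s ≤ a ∧ Rz L s} :=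
      ⟨sup_le hm.prop.1 hg2, rz_sup hm.prop.2 (rz_of_srz hg1)⟩
    have h2 := hm.le_of_ge h1 le_sup_left
    exact hg3 (le_sup_right.trans h2)
  have h3 : m = a := le_antisymm hm.prop.1 hma
  rw [← h3]
  exact hm.prop.2

/-- The disjoint sum of two measures. -/
def sumM {L : Type} [Lattice L] [OrderBot L] {E F : Type} (μ : E → E → L) (ν : F → F → L) :
    E ⊕ F → E ⊕ F → L
  | .inl x, .inl y => μ x y
  | .inr x, .inr y => ν x y
  | _, _ => ⊥

theorem good_sum {L : Type} [Lattice L] [OrderBot L] {E F : Type} [PartialOrder E]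
    [PartialOrder F] {μ : E → E → L} {ν : F → F → L} (hμ : Good L E μ) (hν : Good L F ν) :
    Good L (E ⊕ F) (sumM μ ν) := by
  refine ⟨?_, ?_, ?_, ?_⟩
  · rintro (x | x)
    · exact hμ.refl x
    · exact hν.refl x
  · rintro (x | x) (y | y) (z | z) hxy hyz
    · exact hμ.right _ _ _ (Sum.inl_le_inl_iff.1 hxy) (Sum.inl_le_inl_iff.1 hyz)
    · exact absurd hyz Sum.not_inl_le_inr
    · exact absurd hxy Sum.not_inl_le_inr
    · exact absurd hxy Sum.not_inl_le_inr
    · exact absurd hxy Sum.not_inr_le_inl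
    · exact absurd hxy Sum.not_inr_le_inl
    · exact absurd hyz Sum.not_inr_le_inl
    · exact hν.right _ _ _ (Sum.inr_le_inr_iff.1 hxy) (Sum.inr_le_inr_iff.1 hyz)
  · rintro (x | x) (y | y) (z | z) hxy hyz
    · exact hμ.tri _ _ _ (Sum.inl_le_inl_iff.1 hxy) (Sum.inl_le_inl_iff.1 hyz)
    · exact absurd hyz Sum.not_inl_le_inr
    · exact absurd hxy Sum.not_inl_le_inr
    · exact absurd hxy Sum.not_inl_le_inr
    · exact absurd hxy Sum.not_inr_le_inl
    · exact absurd hxy Sum.not_inr_le_inl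
    · exact absurd hyz Sum.not_inr_le_inl
    · exact hν.tri _ _ _ (Sum.inr_le_inr_iff.1 hxy) (Sum.inr_le_inr_iff.1 hyz)
  · rintro (x | x) (y | y) hxy u v h
    · refine tlift Sum.inl ?_ (hμ.ref x y (Sum.inl_lt_inl_iff.1 hxy) u v h)
      rintro s t ⟨h1, h2⟩
      exact ⟨Sum.inl_lt_inl_iff.2 h1, h2⟩
    · exact absurd hxy Sum.not_inl_lt_inr
    · exact absurd hxy Sum.not_inr_lt_inl
    · refine tlift Sum.inr ?_ (hν.ref x y (Sum.inr_lt_inr_iff.1 hxy) u v h)
      rintro s t ⟨h1, h2⟩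
      exact ⟨Sum.inr_lt_inr_iff.2 h1, h2⟩

/-- Finitely many strict values are strict values of a common measure. -/
theorem common {L : Type} [Lattice L] [OrderBot L] {M : Set L} (hM : M.Finite) :
    (∀ u ∈ M, SRz L u) → ∃ (E : Type) (_ : PartialOrder E) (_ : Finite E) (_ : Nonempty E)
      (μ : E → E → L), Good L E μ ∧ ∀ u ∈ M, ∃ x y, x < y ∧ μ x y = u ∧ ∀ w, x < w → w < y → μ w y < u := by
  induction M, hM using Set.Finite.induction_on with
  | empty =>
    intro _
    refine ⟨PUnit, inferInstance, inferInstance, inferInstance, fun _ _ => ⊥, ?_, ?_⟩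
    · refine ⟨fun _ => rfl, fun _ _ _ _ _ => le_refl _, fun _ _ _ _ _ => bot_le, ?_⟩
      intro x y hxy
      exact absurd hxy (lt_irrefl _)
    · rintro u ⟨⟩
  | insert _ _ ih =>
    intro h
    obtain ⟨E, _, _, _, μ, hμ, hE⟩ := ih (fun u hu => h u (Set.mem_insert_of_mem _ hu))
    obtain ⟨F, _, _, ν, x, y, hν, hxy, hval, hs⟩ := h _ (Set.mem_insert _ _)
    refine ⟨E ⊕ F, inferInstance, inferInstance, inferInstance, sumM μ ν, good_sum hμ hν, ?_⟩
    rintro u (rfl | hu)
    · refine ⟨Sum.inr x, Sum.inr y, Sum.inr_lt_inr_iff.2 hxy, hval, ?_⟩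
      rintro (w | w) h1 h2
      · exact absurd h1 Sum.not_inr_lt_inl
      · exact hs w (Sum.inr_lt_inr_iff.1 h1) (Sum.inr_lt_inr_iff.1 h2)
    · obtain ⟨x', y', hxy', hval', hs'⟩ := hE u hu
      refine ⟨Sum.inl x', Sum.inl y', Sum.inl_lt_inl_iff.2 hxy', hval', ?_⟩
      rintro (w | w) h1 h2
      · exact hs' w (Sum.inl_lt_inl_iff.1 h1) (Sum.inl_lt_inl_iff.1 h2)
      · exact absurd h1 Sum.not_inl_lt_inr

end Measures

/-! ### Doubling an interval -/

section Doubling

open Relation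

variable {L : Type} [Lattice L] [OrderBot L]

/-- The lattice obtained from `L` by doubling the interval of all `c` with `a ≤ c ≤ b`. -/
def DD (a b : L) : Type :=
  {p : L × Prop // (p.2 → a ≤ p.1) ∧ (a ≤ p.1 → ¬ p.1 ≤ b → p.2)}

variable {a b : L}

instance : PartialOrder (DD a b) := Subtype.partialOrder _

theorem dd_le {p q : DD a b} : p ≤ q ↔ p.1.1 ≤ q.1.1 ∧ (p.1.2 → q.1.2) := Iff.rfl

instance : Lattice (DD a b) where
  sup p q := ⟨(p.1.1 ⊔ q.1.1, p.1.2 ∨ q.1.2 ∨ (a ≤ p.1.1 ⊔ q.1.1 ∧ ¬ p.1.1 ⊔ q.1.1 ≤ b)), by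
    refine ⟨?_, fun h1 h2 => Or.inr (Or.inr ⟨h1, h2⟩)⟩
    rintro (h | h | h)
    · exact (p.2.1 h).trans le_sup_left
    · exact (q.2.1 h).trans le_sup_right
    · exact h.1⟩
  inf p q := ⟨(p.1.1 ⊓ q.1.1, p.1.2 ∧ q.1.2), by
    refine ⟨fun h => le_inf (p.2.1 h.1) (q.2.1 h.2), fun h1 h2 => ⟨?_, ?_⟩⟩
    · exact p.2.2 (h1.trans inf_le_left) (fun h3 => h2 (inf_le_left.trans h3))
    · exact q.2.2 (h1.trans inf_le_right) (fun h3 => h2 (inf_le_right.trans h3))⟩
  le_sup_left p q := dd_le.2 ⟨le_sup_left, fun h => Or.inl h⟩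
  le_sup_right p q := dd_le.2 ⟨le_sup_right, fun h => Or.inr (Or.inl h)⟩
  sup_le p q r h1 h2 := by
    rw [dd_le] at *
    refine ⟨sup_le h1.1 h2.1, ?_⟩
    rintro (h | h | h)
    · exact h1.2 h
    · exact h2.2 h
    · exact r.2.2 (h.1.trans (sup_le h1.1 h2.1)) (fun h3 => h.2 ((sup_le h1.1 h2.1).trans h3))
  inf_le_left p q := dd_le.2 ⟨inf_le_left, fun h => h.1⟩
  inf_le_right p q := dd_le.2 ⟨inf_le_right, fun h => h.2⟩
  le_inf p q r h1 h2 := by
    rw [dd_le] at *
    exact ⟨le_inf h1.1 h2.1, fun h => ⟨h1.2 h, h2.2 h⟩⟩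

/-- The least preimage. -/
def sg (a b c : L) : DD a b := ⟨(c, a ≤ c ∧ ¬ c ≤ b), fun h => h.1, fun h1 h2 => ⟨h1, h2⟩⟩

instance : OrderBot (DD a b) where
  bot := sg a b ⊥
  bot_le _ := dd_le.2 ⟨bot_le, fun h => absurd bot_le h.2⟩

instance [Finite L] : Finite (DD a b) := by
  unfold DD
  infer_instance

theorem dd_sup_fst (p q : DD a b) : (p ⊔ q).1.1 = p.1.1 ⊔ q.1.1 := rfl

theorem dd_sup_snd (p q : DD a b) :
    (p ⊔ q).1.2 ↔ p.1.2 ∨ q.1.2 ∨ (a ≤ p.1.1 ⊔ q.1.1 ∧ ¬ p.1.1 ⊔ q.1.1 ≤ b) := Iff.rfl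

theorem dd_inf_fst (p q : DD a b) : (p ⊓ q).1.1 = p.1.1 ⊓ q.1.1 := rfl

theorem dd_inf_snd (p q : DD a b) : (p ⊓ q).1.2 ↔ p.1.2 ∧ q.1.2 := Iff.rfl

theorem sg_le {c : L} {m : DD a b} : sg a b c ≤ m ↔ c ≤ m.1.1 := by
  rw [dd_le]
  refine ⟨fun h => h.1, fun h => ⟨h, ?_⟩⟩
  rintro ⟨h1, h2⟩
  exact m.2.2 (h1.trans h) (fun h3 => h2 (h.trans h3))

/-- The new element. -/
def nw (a b : L) : DD a b := ⟨(a, True), fun _ => le_refl _, fun _ _ => trivial⟩

theorem nw_le {m : DD a b} : nw a b ≤ m ↔ m.1.2 := by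
  rw [dd_le]
  exact ⟨fun h => h.2 trivial, fun h => ⟨m.2.1 h, fun _ => h⟩⟩

/-- The points of the new poset. -/
inductive Car {L E F : Type} [PartialOrder E] [PartialOrder F] (M : Set L) (xs ys : L → E)
    (s0 s1 : F) : Type
  | bot : Car M xs ys s0 s1
  | top : Car M xs ys s0 s1
  | mid (u : L) (w : E) (q : F) (h : u ∈ M ∧ xs u < w ∧ w ≤ ys u ∧ s0 ≤ q ∧ q < s1) :
      Car M xs ys s0 s1

section CarOrder

variable {E F : Type} [PartialOrder E] [PartialOrder F] {M : Set L} {xs ys : L → E} {s0 s1 : F}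

/-- The strict order of the new poset. -/
def Car.lt : Car M xs ys s0 s1 → Car M xs ys s0 s1 → Prop
  | .bot, .bot => False
  | .bot, .mid _ _ _ _ => True
  | .bot, .top => True
  | .mid _ _ _ _, .bot => False
  | .mid u w q _, .mid v w' q' _ => u = v ∧ (w, q) < (w', q')
  | .mid _ _ _ _, .top => True
  | .top, _ => False

theorem Car.lt_irrefl' (x : Car M xs ys s0 s1) : ¬ x.lt x := by
  rcases x with _ | _ | ⟨u, w, q, h⟩
  · exact id
  · exact id
  · rintro ⟨_, h1⟩
    exact absurd h1 (lt_irrefl _)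

theorem Car.lt_trans' {x y z : Car M xs ys s0 s1} (h1 : x.lt y) (h2 : y.lt z) : x.lt z := by
  rcases x with _ | _ | ⟨u, w, q, h⟩ <;> rcases y with _ | _ | ⟨u', w', q', h'⟩ <;>
    rcases z with _ | _ | ⟨u'', w'', q'', h''⟩ <;> first
    | exact h1.elim
    | exact h2.elim
    | trivial
    | exact ⟨h1.1.trans h2.1, h1.2.trans h2.2⟩

instance : PartialOrder (Car M xs ys s0 s1) where
  le x y := x = y ∨ x.lt y
  lt x y := x.lt y
  le_refl x := Or.inl rfl
  le_trans x y z h1 h2 := by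
    rcases h1 with rfl | h1
    · exact h2
    · rcases h2 with rfl | h2
      · exact Or.inr h1
      · exact Or.inr (Car.lt_trans' h1 h2)
  lt_iff_le_not_ge x y := by
    constructor
    · intro h
      refine ⟨Or.inr h, ?_⟩
      rintro (rfl | h2)
      · exact Car.lt_irrefl' _ h
      · exact Car.lt_irrefl' _ (Car.lt_trans' h h2)
    · rintro ⟨rfl | h, h2⟩
      · exact absurd (Or.inl rfl) h2
      · exact h
  le_antisymm x y h1 h2 := by
    rcases h1 with rfl | h1
    · rfl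
    · rcases h2 with rfl | h2
      · rfl
      · exact absurd (Car.lt_trans' h1 h2) (Car.lt_irrefl' _)

theorem Car.lt_def {x y : Car M xs ys s0 s1} : x < y ↔ x.lt y := Iff.rfl

instance [Finite L] [Finite E] [Finite F] : Finite (Car M xs ys s0 s1) := by
  let f : Car M xs ys s0 s1 → Option (Option (L × E × F)) := fun x =>
    match x with
    | .bot => none
    | .top => some none
    | .mid u w q _ => some (some (u, w, q))
  apply Finite.of_injective f
  rintro (_ | _ | ⟨u, w, q, h⟩) (_ | _ | ⟨u', w', q', h'⟩) hxy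
  · rfl
  · cases hxy
  · cases hxy
  · cases hxy
  · rfl
  · cases hxy
  · cases hxy
  · cases hxy
  · cases hxy
    rfl

/-- The new measure. -/
def carM (a b : L) (μ : E → E → L) (ν : F → F → L) :
    Car M xs ys s0 s1 → Car M xs ys s0 s1 → DD a b
  | .bot, .mid u w q _ => sg a b (μ (xs u) w ⊔ ν s0 q)
  | .bot, .top => nw a b
  | .mid _ w q _, .mid _ w' q' _ => sg a b (μ w w' ⊔ ν q q')
  | .mid _ _ q _, .top => sg a b (ν q s1)
  | _, _ => ⊥

open Classical in
/-- The point with given coordinates. -/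
noncomputable def em (M : Set L) (xs ys : L → E) (s0 s1 : F) (u : L) (t : E) (q : F) :
    Car M xs ys s0 s1 :=
  if h : u ∈ M ∧ xs u < t ∧ t ≤ ys u ∧ s0 ≤ q ∧ q < s1 then .mid u t q h
  else if q = s1 then .top else .bot

theorem em_mid {u : L} {t : E} {q : F} (h : u ∈ M ∧ xs u < t ∧ t ≤ ys u ∧ s0 ≤ q ∧ q < s1) :
    em M xs ys s0 s1 u t q = .mid u t q h := dif_pos h

theorem em_top {u : L} {t : E} : em M xs ys s0 s1 u t s1 = .top := by
  unfold em
  rw [dif_neg, if_pos rfl]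
  rintro ⟨_, _, _, _, h⟩
  exact absurd h (lt_irrefl _)

theorem em_bot {u : L} (h : s0 < s1) : em M xs ys s0 s1 u (xs u) s0 = .bot := by
  unfold em
  rw [dif_neg, if_neg h.ne]
  rintro ⟨_, h, _⟩
  exact absurd h (lt_irrefl _)

end CarOrder

theorem car_good {E F : Type} [PartialOrder E] [PartialOrder F] {M : Set L} {xs ys : L → E}
    {s0 s1 : F} {μ : E → E → L} {ν : F → F → L} (hμ : Good L E μ) (hν : Good L F ν)
    (hF : s0 < s1) (hFa : ν s0 s1 = a) (hxy : ∀ u ∈ M, xs u < ys u)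
    (hval : ∀ u ∈ M, μ (xs u) (ys u) = u) (hMb : ∀ u ∈ M, ¬ u ≤ b)
    (hs : ∀ u ∈ M, ∀ w, xs u < w → w ≤ ys u → μ w (ys u) ≤ b)
    (hM : ∀ c, ¬ c ≤ b → ¬ a ≤ c → ∃ u ∈ M, u ≤ c) :
    Good (DD a b) (Car M xs ys s0 s1) (carM a b μ ν) := by
  have hmono : ∀ {c d : L}, c ≤ d → sg a b c ≤ sg a b d := fun h => sg_le.2 h
  -- the first step leaves `b`
  have hfirst : ∀ u ∈ M, ∀ w, xs u < w → w ≤ ys u → ¬ μ (xs u) w ≤ b := by
    intro u hu w h1 h2 h3
    apply hMb u hu
    rw [← hval u hu]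
    exact (hμ.tri _ _ _ h1.le h2).trans (sup_le h3 (hs u hu w h1 h2))
  refine ⟨?_, ?_, ?_, ?_⟩
  · rintro (_ | _ | ⟨u, w, q, h⟩)
    · rfl
    · rfl
    · show sg a b (μ w w ⊔ ν q q) = ⊥
      rw [hμ.refl, hν.refl, sup_idem]
      rfl
  · rintro x y z (rfl | h1) (rfl | h2)
    · exact le_refl _
    · exact le_refl _
    · rcases x with _ | _ | ⟨u, w, q, h⟩ <;> rcases y with _ | _ | ⟨u', w', q', h'⟩
      all_goals first
        | exact h1.elim
        | skip
      · exact bot_le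
      · show sg a b (μ w' w' ⊔ ν q' q') ≤ _
        rw [hμ.refl, hν.refl, sup_idem]
        exact bot_le
      · exact bot_le
      · show sg a b (μ w' w' ⊔ ν q' q') ≤ _
        rw [hμ.refl, hν.refl, sup_idem]
        exact bot_le
    · rcases x with _ | _ | ⟨u, w, q, h⟩ <;> rcases y with _ | _ | ⟨u', w', q', h'⟩ <;>
        rcases z with _ | _ | ⟨u'', w'', q'', h''⟩
      all_goals first
        | exact h1.elim
        | exact h2.elim
        | skip
      · -- bot mid top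
        show sg a b (ν q' s1) ≤ nw a b
        rw [sg_le]
        show ν q' s1 ≤ a
        rw [← hFa]
        exact hν.right _ _ _ h'.2.2.2.1 h'.2.2.2.2.le
      · -- bot mid mid
        obtain ⟨rfl, h3⟩ := h2
        exact hmono (sup_le_sup (hμ.right _ _ _ h'.2.1.le h3.le.1)
          (hν.right _ _ _ h'.2.2.2.1 h3.le.2))
      · -- mid mid top
        obtain ⟨rfl, h3⟩ := h1
        exact hmono (hν.right _ _ _ h3.le.2 h'.2.2.2.2.le)
      · -- mid mid mid
        obtain ⟨rfl, h3⟩ := h1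
        obtain ⟨rfl, h4⟩ := h2
        exact hmono (sup_le_sup (hμ.right _ _ _ h3.le.1 h4.le.1)
          (hν.right _ _ _ h3.le.2 h4.le.2))
  · rintro x y z (rfl | h1) (rfl | h2)
    · exact le_sup_left
    · exact le_sup_right
    · exact le_sup_left
    · rcases x with _ | _ | ⟨u, w, q, h⟩ <;> rcases y with _ | _ | ⟨u', w', q', h'⟩ <;>
        rcases z with _ | _ | ⟨u'', w'', q'', h''⟩
      all_goals first
        | exact h1.elim
        | exact h2.elim
        | skip
      · -- bot mid top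
        show nw a b ≤ sg a b (μ (xs u') w' ⊔ ν s0 q') ⊔ sg a b (ν q' s1)
        rw [nw_le, dd_sup_snd]
        refine Or.inr (Or.inr ⟨?_, ?_⟩)
        · show a ≤ (μ (xs u') w' ⊔ ν s0 q') ⊔ ν q' s1
          rw [sup_assoc]
          conv_lhs => rw [← hFa]
          exact (hν.tri _ _ _ h'.2.2.2.1 h'.2.2.2.2.le).trans le_sup_right
        · intro h3
          exact hfirst u' h'.1 w' h'.2.1 h'.2.2.1
            ((le_sup_left.trans le_sup_left).trans h3)
      · -- bot mid mid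
        obtain ⟨rfl, h3⟩ := h2
        show sg a b _ ≤ sg a b _ ⊔ sg a b _
        rw [sg_le, dd_sup_fst]
        show μ (xs u') w'' ⊔ ν s0 q'' ≤ (μ (xs u') w' ⊔ ν s0 q') ⊔ (μ w' w'' ⊔ ν q' q'')
        rw [sup_sup_sup_comm]
        exact sup_le_sup (hμ.tri _ _ _ h'.2.1.le h3.le.1) (hν.tri _ _ _ h'.2.2.2.1 h3.le.2)
      · -- mid mid top
        obtain ⟨rfl, h3⟩ := h1
        show sg a b _ ≤ sg a b _ ⊔ sg a b _
        rw [sg_le, dd_sup_fst]
        show ν q s1 ≤ (μ w w' ⊔ ν q q') ⊔ ν q' s1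
        exact (hν.tri _ _ _ h3.le.2 h'.2.2.2.2.le).trans (sup_le_sup le_sup_right (le_refl _))
      · -- mid mid mid
        obtain ⟨rfl, h3⟩ := h1
        obtain ⟨rfl, h4⟩ := h2
        show sg a b _ ≤ sg a b _ ⊔ sg a b _
        rw [sg_le, dd_sup_fst]
        show μ w w'' ⊔ ν q q'' ≤ (μ w w' ⊔ ν q q') ⊔ (μ w' w'' ⊔ ν q' q'')
        rw [sup_sup_sup_comm]
        exact sup_le_sup (hμ.tri _ _ _ h3.le.1 h4.le.1) (hν.tri _ _ _ h3.le.2 h4.le.2)
  · intro x y hlt U V hUV
    -- chains in the direction of `E`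
    have chE : ∀ u ∈ M, ∀ w w' q, xs u ≤ w → w < w' → w' ≤ ys u → s0 ≤ q → q < s1 →
        (w = xs u → q = s0) → μ w w' ≤ U.1.1 ⊔ V.1.1 →
        TransGen (fun s t => s < t ∧ (carM a b μ ν s t ≤ U ∨ carM a b μ ν s t ≤ V))
          (em M xs ys s0 s1 u w q) (em M xs ys s0 s1 u w' q) := by
      intro u hu w w' q h1 h2 h3 h4 h5 h6 h7
      refine tlift (fun t => em M xs ys s0 s1 u t q) ?_ (chain_mem (hμ.ref w w' h2 _ _ h7))
      rintro s t ⟨h8, h9, h10, h11⟩
      have ht : u ∈ M ∧ xs u < t ∧ t ≤ ys u ∧ s0 ≤ q ∧ q < s1 :=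
        ⟨hu, (h1.trans h8).trans_lt h9, h10.trans h3, h4, h5⟩
      have key : em M xs ys s0 s1 u s q < em M xs ys s0 s1 u t q ∧
          carM a b μ ν (em M xs ys s0 s1 u s q) (em M xs ys s0 s1 u t q) = sg a b (μ s t) := by
        rcases eq_or_lt_of_le (h1.trans h8) with h12 | h12
        · have h13 : w = xs u := le_antisymm (h8.trans h12.ge) h1
          have h14 := h6 h13
          subst h14
          rw [← h12, em_bot h5, em_mid ht]
          refine ⟨trivial, ?_⟩
          show sg a b (μ (xs u) t ⊔ ν q q) = _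
          rw [hν.refl, sup_bot_eq]
        · have hs' : u ∈ M ∧ xs u < s ∧ s ≤ ys u ∧ s0 ≤ q ∧ q < s1 :=
            ⟨hu, h12, h9.le.trans ht.2.2.1, h4, h5⟩
          rw [em_mid hs', em_mid ht]
          refine ⟨⟨rfl, Prod.mk_lt_mk_of_lt_of_le h9 (le_refl _)⟩, ?_⟩
          show sg a b (μ s t ⊔ ν q q) = _
          rw [hν.refl, sup_bot_eq]
      refine ⟨key.1, ?_⟩
      rw [key.2, sg_le, sg_le]
      exact h11
    -- chains in the direction of `F`
    have chF : ∀ u ∈ M, ∀ w q q', xs u < w → w ≤ ys u → s0 ≤ q → q < q' → q' ≤ s1 →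
        ν q q' ≤ U.1.1 ⊔ V.1.1 →
        TransGen (fun s t => s < t ∧ (carM a b μ ν s t ≤ U ∨ carM a b μ ν s t ≤ V))
          (em M xs ys s0 s1 u w q) (em M xs ys s0 s1 u w q') := by
      intro u hu w q q' h1 h2 h3 h4 h5 h7
      refine tlift (fun t => em M xs ys s0 s1 u w t) ?_ (chain_mem (hν.ref q q' h4 _ _ h7))
      rintro s t ⟨h8, h9, h10, h11⟩
      have hs' : u ∈ M ∧ xs u < w ∧ w ≤ ys u ∧ s0 ≤ s ∧ s < s1 :=
        ⟨hu, h1, h2, h3.trans h8, h9.trans_le (h10.trans h5)⟩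
      have key : em M xs ys s0 s1 u w s < em M xs ys s0 s1 u w t ∧
          carM a b μ ν (em M xs ys s0 s1 u w s) (em M xs ys s0 s1 u w t) = sg a b (ν s t) := by
        rcases eq_or_lt_of_le (h10.trans h5) with h12 | h12
        · rw [h12, em_top, em_mid hs']
          exact ⟨trivial, rfl⟩
        · have ht : u ∈ M ∧ xs u < w ∧ w ≤ ys u ∧ s0 ≤ t ∧ t < s1 :=
            ⟨hu, h1, h2, (h3.trans h8).trans h9.le, h12⟩
          rw [em_mid hs', em_mid ht]
          refine ⟨⟨rfl, Prod.mk_lt_mk_of_le_of_lt (le_refl _) h9⟩, ?_⟩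
          show sg a b (μ w w ⊔ ν s t) = _
          rw [hμ.refl, bot_sup_eq]
      refine ⟨key.1, ?_⟩
      rw [key.2, sg_le, sg_le]
      exact h11
    rcases x with _ | _ | ⟨u, w, q, h⟩ <;> rcases y with _ | _ | ⟨u', w', q', h'⟩
    all_goals first
      | exact hlt.elim
      | skip
    · -- bot top
      have hUV' : nw a b ≤ U ⊔ V := hUV
      by_cases hU : nw a b ≤ U
      · exact TransGen.single ⟨trivial, Or.inl hU⟩
      by_cases hV : nw a b ≤ V
      · exact TransGen.single ⟨trivial, Or.inr hV⟩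
      rw [nw_le] at hUV' hU hV
      rw [dd_sup_snd] at hUV'
      obtain ⟨h1, h2⟩ : a ≤ U.1.1 ⊔ V.1.1 ∧ ¬ U.1.1 ⊔ V.1.1 ≤ b := by tauto
      have h3 : ∃ u ∈ M, u ≤ U.1.1 ∨ u ≤ V.1.1 := by
        by_cases hUb : U.1.1 ≤ b
        · have hVb : ¬ V.1.1 ≤ b := fun h4 => h2 (sup_le hUb h4)
          obtain ⟨u, hu, hu2⟩ := hM _ hVb (fun h5 => hV (V.2.2 h5 hVb))
          exact ⟨u, hu, Or.inr hu2⟩
        · obtain ⟨u, hu, hu2⟩ := hM _ hUb (fun h5 => hU (U.2.2 h5 hUb))
          exact ⟨u, hu, Or.inl hu2⟩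
      obtain ⟨u, hu, hu2⟩ := h3
      have hy : u ∈ M ∧ xs u < ys u ∧ ys u ≤ ys u ∧ s0 ≤ s0 ∧ s0 < s1 :=
        ⟨hu, hxy u hu, le_refl _, le_refl _, hF⟩
      have c1 := chF u hu (ys u) s0 s1 (hxy u hu) (le_refl _) (le_refl _) hF (le_refl _)
        (by rw [hFa]; exact h1)
      rw [em_top, em_mid hy] at c1
      have step : (Car.bot : Car M xs ys s0 s1) < .mid u (ys u) s0 hy := Car.lt_def.2 trivial
      refine TransGen.head ⟨step, ?_⟩ c1
      show sg a b (μ (xs u) (ys u) ⊔ ν s0 s0) ≤ U ∨ sg a b (μ (xs u) (ys u) ⊔ ν s0 s0) ≤ V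
      rw [hν.refl, sup_bot_eq, hval u hu, sg_le, sg_le]
      exact hu2
    · -- bot mid
      have h1 : μ (xs u') w' ⊔ ν s0 q' ≤ U.1.1 ⊔ V.1.1 := sg_le.1 hUV
      have c1 := chE u' h'.1 (xs u') w' s0 (le_refl _) h'.2.1 h'.2.2.1 (le_refl _) hF
        (fun _ => rfl) (le_sup_left.trans h1)
      rw [em_bot hF] at c1
      rcases eq_or_lt_of_le h'.2.2.2.1 with h2 | h2
      · subst h2
        rwa [em_mid h'] at c1
      · have c2 := chF u' h'.1 w' s0 q' h'.2.1 h'.2.2.1 (le_refl _) h2 h'.2.2.2.2.le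
          (le_sup_right.trans h1)
        rw [em_mid h'] at c2
        exact c1.trans c2
    · -- mid top
      have h1 : ν q s1 ≤ U.1.1 ⊔ V.1.1 := sg_le.1 hUV
      have c1 := chF u h.1 w q s1 h.2.1 h.2.2.1 h.2.2.2.1 h.2.2.2.2 (le_refl _) h1
      rwa [em_top, em_mid h] at c1
    · -- mid mid
      obtain ⟨rfl, h3⟩ := hlt
      have h1 : μ w w' ⊔ ν q q' ≤ U.1.1 ⊔ V.1.1 := sg_le.1 hUV
      have hle := h3.le
      have c1 : w < w' → _ := fun h4 => chE u h.1 w w' q h.2.1.le h4 h'.2.2.1 h.2.2.2.1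
        h.2.2.2.2 (fun h5 => absurd h5.symm h.2.1.ne) (le_sup_left.trans h1)
      have c2 : q < q' → _ := fun h4 => chF u h.1 w' q q' h'.2.1 h'.2.2.1 h.2.2.2.1 h4
        h'.2.2.2.2.le (le_sup_right.trans h1)
      rcases eq_or_lt_of_le hle.1 with h5 | h5
      · simp only at h5
        subst h5
        rcases eq_or_lt_of_le hle.2 with h6 | h6
        · simp only at h6
          subst h6
          exact absurd h3 (lt_irrefl _)
        · have c := c2 h6
          rwa [em_mid h, em_mid h'] at c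
      · rcases eq_or_lt_of_le hle.2 with h6 | h6
        · simp only at h6
          subst h6
          have c := c1 h5
          rwa [em_mid h, em_mid h'] at c
        · have c := (c1 h5).trans (c2 h6)
          rwa [em_mid h, em_mid h'] at c

theorem srz_nw [Finite L] (hK : KK L) (hab : a ≤ b) : SRz (DD a b) (nw a b) := by
  let M : Set L := {u | SRz L u ∧ ¬ u ≤ b ∧ ∀ v, v < u → SRz L v → v ≤ b}
  obtain ⟨E, _, _, _, μ, hμ, hE⟩ := common (M := M) (Set.toFinite M) (fun u hu => hu.1)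
  obtain ⟨F, _, _, ν, s0, s1, hν, hF, hFa⟩ := rz_all hK a
  have hE2 : ∀ u, ∃ x y : E, u ∈ M → x < y ∧ μ x y = u ∧
      ∀ w, x < w → w < y → μ w y < u := by
    intro u
    by_cases hu : u ∈ M
    · obtain ⟨x, y, h⟩ := hE u hu
      exact ⟨x, y, fun _ => h⟩
    · obtain ⟨x⟩ := (inferInstance : Nonempty E)
      exact ⟨x, x, fun h => absurd h hu⟩
  choose xs ys hxy using hE2
  refine ⟨Car M xs ys s0 s1, inferInstance, inferInstance, carM a b μ ν, .bot, .top, ?_,
    Car.lt_def.2 trivial, rfl, ?_⟩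
  · refine car_good hμ hν hF hFa (fun u hu => (hxy u hu).1) (fun u hu => (hxy u hu).2.1)
      (fun u hu => hu.2.1) ?_ ?_
    · intro u hu w h1 h2
      rcases eq_or_lt_of_le h2 with rfl | h2
      · rw [hμ.refl]
        exact bot_le
      · by_contra h3
        obtain ⟨g, hg1, hg2, hg3⟩ := hK _ _ h3
        exact hg3 (hu.2.2 g (lt_of_le_of_lt hg2 ((hxy u hu).2.2 w h1 h2)) hg1)
    · intro c hc _
      obtain ⟨g, hg1, hg2, hg3⟩ := hK _ _ hc
      obtain ⟨m, hm⟩ := (Set.toFinite {v : L | SRz L v ∧ v ≤ c ∧ ¬ v ≤ b}).exists_minimal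
        ⟨g, hg1, hg2, hg3⟩
      refine ⟨m, ⟨hm.prop.1, hm.prop.2.2, ?_⟩, hm.prop.2.1⟩
      intro v hv1 hv2
      by_contra hv3
      have h4 := hm.le_of_le ⟨hv2, hv1.le.trans hm.prop.2.1, hv3⟩ hv1.le
      exact absurd hv1 (not_lt_of_ge h4)
  · rintro (_ | _ | ⟨u, w, q, h⟩) h1 h2
    · exact h1.elim
    · exact h2.elim
    · show sg a b (ν q s1) < nw a b
      refine lt_of_le_of_ne ?_ ?_
      · rw [sg_le]
        show ν q s1 ≤ a
        rw [← hFa]
        exact hν.right _ _ _ h.2.2.2.1 h.2.2.2.2.le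
      · intro h3
        have h4 : (sg a b (ν q s1)).1.2 := by
          rw [h3]
          trivial
        have h5 : (sg a b (ν q s1)).1.1 = a := by
          rw [h3]
          rfl
        have h6 : ν q s1 = a := h5
        apply h4.2
        rw [h6]
        exact hab

theorem kk_dd [Finite L] (hK : KK L) (hab : a ≤ b) : KK (DD a b) := by
  intro c d hcd
  by_cases h : c.1.1 ≤ d.1.1
  · refine ⟨nw a b, srz_nw hK hab, ?_, ?_⟩
    · rw [nw_le]
      by_contra h2
      exact hcd (dd_le.2 ⟨h, fun h3 => absurd h3 h2⟩)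
    · rw [nw_le]
      intro h2
      exact hcd (dd_le.2 ⟨h, fun _ => h2⟩)
  · obtain ⟨g, hg1, hg2, hg3⟩ := hK _ _ h
    refine ⟨sg a b g, ?_, sg_le.2 hg2, fun h4 => hg3 (sg_le.1 h4)⟩
    exact srz_map (π := fun m : DD a b => m.1.1) (fun c m => sg_le) (fun _ _ => rfl)
      (fun _ => rfl) hg1

end Doubling

/-! ### Products and the two-element lattice -/

section Base

open Relation

theorem kk_prod {L M : Type} [Lattice L] [OrderBot L] [Lattice M] [OrderBot M] (hL : KK L)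
    (hM : KK M) : KK (L × M) := by
  intro c d hcd
  by_cases h : c.1 ≤ d.1
  · have h2 : ¬ c.2 ≤ d.2 := fun h2 => hcd ⟨h, h2⟩
    obtain ⟨g, hg1, hg2, hg3⟩ := hM _ _ h2
    refine ⟨(⊥, g), ?_, ⟨bot_le, hg2⟩, fun h4 => hg3 h4.2⟩
    exact srz_map (σ := fun g : M => ((⊥, g) : L × M)) (π := Prod.snd)
      (fun c m => ⟨fun h => (Prod.le_def.1 h).2, fun h => Prod.le_def.2 ⟨bot_le, h⟩⟩) (fun _ _ => rfl) (fun _ => rfl) hg1
  · obtain ⟨g, hg1, hg2, hg3⟩ := hL _ _ h
    refine ⟨(g, ⊥), ?_, ⟨hg2, bot_le⟩, fun h4 => hg3 h4.1⟩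
    exact srz_map (σ := fun g : L => ((g, ⊥) : L × M)) (π := Prod.fst)
      (fun c m => ⟨fun h => (Prod.le_def.1 h).1, fun h => Prod.le_def.2 ⟨h, bot_le⟩⟩) (fun _ _ => rfl) (fun _ => rfl) hg1

theorem srz_bool : SRz Bool true := by
  refine ⟨Bool, inferInstance, inferInstance, fun x y => !(x == y), false, true, ?_, by decide,
    rfl, ?_⟩
  · refine ⟨by decide, by decide, by decide, ?_⟩
    intro x y hxy u v huv
    refine TransGen.single ⟨hxy, ?_⟩
    revert x y u v
    decide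
  · decide

theorem kk_bool : KK Bool := by
  intro c d hcd
  refine ⟨true, srz_bool, ?_, ?_⟩
  · revert c d
    decide
  · revert c d
    decide

end Base

/-! ### The identities which hold in all these lattices hold in all lattices -/

section Words

theorem eval_map {L M : Type*} [Lattice L] [Lattice M] (π : L → M)
    (h1 : ∀ x y, π (x ⊔ y) = π x ⊔ π y) (h2 : ∀ x y, π (x ⊓ y) = π x ⊓ π y) (v : ℕ → L)
    (t : LTerm) : π (t.eval v) = t.eval (fun n => π (v n)) := by
  induction t with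
  | var n => rfl
  | join a b iha ihb =>
    show π (a.eval v ⊔ b.eval v) = _
    rw [h1, iha, ihb]
    rfl
  | meet a b iha ihb =>
    show π (a.eval v ⊓ b.eval v) = _
    rw [h2, iha, ihb]
    rfl

/-- The inequalities of `A` fail simultaneously in one of our lattices. -/
def Fail (A : Set (LTerm × LTerm)) : Prop :=
  ∃ (L : Type) (_ : Lattice L) (_ : OrderBot L) (_ : Finite L) (v : ℕ → L), KK L ∧
    ∀ p ∈ A, ¬ p.1.eval v ≤ p.2.eval v

theorem fail_union {A B : Set (LTerm × LTerm)} (hA : Fail A) (hB : Fail B) : Fail (A ∪ B) := by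
  obtain ⟨L, _, _, _, v, hL, hv⟩ := hA
  obtain ⟨M, _, _, _, w, hM, hw⟩ := hB
  refine ⟨L × M, inferInstance, inferInstance, inferInstance, fun n => (v n, w n),
    kk_prod hL hM, ?_⟩
  have e1 : ∀ t : LTerm, (t.eval (fun n => (v n, w n))).1 = t.eval v := fun t =>
    eval_map (Prod.fst : L × M → L) (fun _ _ => rfl) (fun _ _ => rfl) _ t
  have e2 : ∀ t : LTerm, (t.eval (fun n => (v n, w n))).2 = t.eval w := fun t =>
    eval_map (Prod.snd : L × M → M) (fun _ _ => rfl) (fun _ _ => rfl) _ t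
  rintro p (hp | hp) h
  · apply hv p hp
    rw [← e1, ← e1]
    exact h.1
  · apply hw p hp
    rw [← e2, ← e2]
    exact h.2

theorem fail_mono {A B : Set (LTerm × LTerm)} (h : A ⊆ B) (hB : Fail B) : Fail A := by
  obtain ⟨L, i1, i2, i3, v, hL, hv⟩ := hB
  exact ⟨L, i1, i2, i3, v, hL, fun p hp => hv p (h hp)⟩

theorem fail_pair {p q : LTerm × LTerm} (hp : Fail {p}) (hq : Fail {q}) : Fail {p, q} := by
  have h := fail_union hp hq
  rwa [Set.singleton_union] at h

/-- A term evaluated in the doubled lattice. -/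
theorem dd_eval {L : Type} [Lattice L] [OrderBot L] {a b : L} (v : ℕ → DD a b) (t : LTerm) :
    (t.eval v).1.1 = t.eval (fun n => (v n).1.1) :=
  eval_map (fun m : DD a b => m.1.1) (fun _ _ => rfl) (fun _ _ => rfl) v t

theorem fail_var_join {i : ℕ} {t1 t2 : LTerm} (h1 : Fail {(.var i, t1)})
    (h2 : Fail {(.var i, t2)}) : Fail {(.var i, .join t1 t2)} := by
  obtain ⟨L, _, _, _, v, hL, hv⟩ := fail_pair h1 h2
  have g1 : ¬ v i ≤ t1.eval v := hv _ (Or.inl rfl)
  have g2 : ¬ v i ≤ t2.eval v := hv _ (Or.inr rfl)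
  by_cases h : v i ≤ t1.eval v ⊔ t2.eval v
  · set a := v i with ha
    set b := t1.eval v ⊔ t2.eval v with hb
    let w : ℕ → DD a b := fun n => if n = i then nw a b else sg a b (v n)
    have hw : (fun n => (w n).1.1) = v := by
      funext n
      by_cases hn : n = i
      · subst hn
        simp only [w, if_pos rfl]
        rfl
      · simp only [w, if_neg hn]
        rfl
    refine ⟨DD a b, inferInstance, inferInstance, inferInstance, w, kk_dd hL h, ?_⟩
    rintro p rfl h3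
    have h4 : (w i).1.2 := by
      simp only [w, if_pos rfl]
      trivial
    have h5 := (dd_le.1 h3).2 h4
    have e1 : (t1.eval w).1.1 = t1.eval v := by rw [dd_eval, hw]
    have e2 : (t2.eval w).1.1 = t2.eval v := by rw [dd_eval, hw]
    rcases h5 with h6 | h6 | h6
    · exact g1 (by rw [← e1]; exact (t1.eval w).2.1 h6)
    · exact g2 (by rw [← e2]; exact (t2.eval w).2.1 h6)
    · apply h6.2
      show (t1.eval w).1.1 ⊔ (t2.eval w).1.1 ≤ b
      rw [e1, e2]
  · refine ⟨L, inferInstance, inferInstance, inferInstance, v, hL, ?_⟩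
    rintro p rfl
    exact h

theorem fail_meet_var {j : ℕ} {s1 s2 : LTerm} (h1 : Fail {(s1, .var j)})
    (h2 : Fail {(s2, .var j)}) : Fail {(.meet s1 s2, .var j)} := by
  obtain ⟨L, _, _, _, v, hL, hv⟩ := fail_pair h1 h2
  have g1 : ¬ s1.eval v ≤ v j := hv _ (Or.inl rfl)
  have g2 : ¬ s2.eval v ≤ v j := hv _ (Or.inr rfl)
  by_cases h : s1.eval v ⊓ s2.eval v ≤ v j
  · set a := s1.eval v ⊓ s2.eval v with ha
    set b := v j with hb
    let w : ℕ → DD a b := fun n => sg a b (v n)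
    have hw : (fun n => (w n).1.1) = v := rfl
    refine ⟨DD a b, inferInstance, inferInstance, inferInstance, w, kk_dd hL h, ?_⟩
    rintro p rfl h3
    have e1 : (s1.eval w).1.1 = s1.eval v := by rw [dd_eval, hw]
    have e2 : (s2.eval w).1.1 = s2.eval v := by rw [dd_eval, hw]
    have h4 : (s1.eval w).1.2 := (s1.eval w).2.2 (by rw [e1]; exact inf_le_left)
      (by rw [e1]; exact g1)
    have h5 : (s2.eval w).1.2 := (s2.eval w).2.2 (by rw [e2]; exact inf_le_right)
      (by rw [e2]; exact g2)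
    have h6 : (w j).1.2 := (dd_le.1 h3).2 ⟨h4, h5⟩
    exact h6.2 (le_refl _)
  · refine ⟨L, inferInstance, inferInstance, inferInstance, v, hL, ?_⟩
    rintro p rfl
    exact h

theorem fail_meet_join {s1 s2 t1 t2 : LTerm} (h1 : Fail {(s1, .join t1 t2)})
    (h2 : Fail {(s2, .join t1 t2)}) (h3 : Fail {(.meet s1 s2, t1)})
    (h4 : Fail {(.meet s1 s2, t2)}) : Fail {(.meet s1 s2, .join t1 t2)} := by
  obtain ⟨L, _, _, _, v, hL, hv⟩ := fail_union (fail_pair h1 h2) (fail_pair h3 h4)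
  have g1 : ¬ s1.eval v ≤ t1.eval v ⊔ t2.eval v := hv _ (Or.inl (Or.inl rfl))
  have g2 : ¬ s2.eval v ≤ t1.eval v ⊔ t2.eval v := hv _ (Or.inl (Or.inr rfl))
  have g3 : ¬ s1.eval v ⊓ s2.eval v ≤ t1.eval v := hv _ (Or.inr (Or.inl rfl))
  have g4 : ¬ s1.eval v ⊓ s2.eval v ≤ t2.eval v := hv _ (Or.inr (Or.inr rfl))
  by_cases h : s1.eval v ⊓ s2.eval v ≤ t1.eval v ⊔ t2.eval v
  · set a := s1.eval v ⊓ s2.eval v with ha
    set b := t1.eval v ⊔ t2.eval v with hb
    let w : ℕ → DD a b := fun n => sg a b (v n)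
    have hw : (fun n => (w n).1.1) = v := rfl
    refine ⟨DD a b, inferInstance, inferInstance, inferInstance, w, kk_dd hL h, ?_⟩
    rintro p rfl h3
    have e1 : (s1.eval w).1.1 = s1.eval v := by rw [dd_eval, hw]
    have e2 : (s2.eval w).1.1 = s2.eval v := by rw [dd_eval, hw]
    have e3 : (t1.eval w).1.1 = t1.eval v := by rw [dd_eval, hw]
    have e4 : (t2.eval w).1.1 = t2.eval v := by rw [dd_eval, hw]
    have h4 : (s1.eval w).1.2 := (s1.eval w).2.2 (by rw [e1]; exact inf_le_left)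
      (by rw [e1]; exact g1)
    have h5 : (s2.eval w).1.2 := (s2.eval w).2.2 (by rw [e2]; exact inf_le_right)
      (by rw [e2]; exact g2)
    rcases (dd_le.1 h3).2 ⟨h4, h5⟩ with h6 | h6 | h6
    · exact g3 (by rw [← e3]; exact (t1.eval w).2.1 h6)
    · exact g4 (by rw [← e4]; exact (t2.eval w).2.1 h6)
    · apply h6.2
      show (t1.eval w).1.1 ⊔ (t2.eval w).1.1 ≤ b
      rw [e3, e4]
  · refine ⟨L, inferInstance, inferInstance, inferInstance, v, hL, ?_⟩
    rintro p rfl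
    exact h

/-- Every inequality between lattice terms holds in all lattices or fails in one of ours. -/
theorem holds_or_fail : ∀ s t : LTerm,
    (∀ {M : Type u} [Lattice M] (v : ℕ → M), s.eval v ≤ t.eval v) ∨ Fail {(s, t)}
  | .join s1 s2, t => by
    rcases holds_or_fail s1 t with h1 | h1
    · rcases holds_or_fail s2 t with h2 | h2
      · exact Or.inl (fun v => sup_le (h1 v) (h2 v))
      · right
        obtain ⟨L, i1, i2, i3, v, hL, hv⟩ := h2
        refine ⟨L, i1, i2, i3, v, hL, ?_⟩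
        rintro p rfl h3
        exact hv _ rfl (le_sup_right.trans h3)
    · right
      obtain ⟨L, i1, i2, i3, v, hL, hv⟩ := h1
      refine ⟨L, i1, i2, i3, v, hL, ?_⟩
      rintro p rfl h3
      exact hv _ rfl (le_sup_left.trans h3)
  | .var i, .meet t1 t2 => by
    rcases holds_or_fail (.var i) t1 with h1 | h1
    · rcases holds_or_fail (.var i) t2 with h2 | h2
      · exact Or.inl (fun v => le_inf (h1 v) (h2 v))
      · right
        obtain ⟨L, i1, i2, i3, v, hL, hv⟩ := h2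
        refine ⟨L, i1, i2, i3, v, hL, ?_⟩
        rintro p rfl h3
        exact hv _ rfl (h3.trans inf_le_right)
    · right
      obtain ⟨L, i1, i2, i3, v, hL, hv⟩ := h1
      refine ⟨L, i1, i2, i3, v, hL, ?_⟩
      rintro p rfl h3
      exact hv _ rfl (h3.trans inf_le_left)
  | .meet s1 s2, .meet t1 t2 => by
    rcases holds_or_fail (.meet s1 s2) t1 with h1 | h1
    · rcases holds_or_fail (.meet s1 s2) t2 with h2 | h2
      · exact Or.inl (fun v => le_inf (h1 v) (h2 v))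
      · right
        obtain ⟨L, i1, i2, i3, v, hL, hv⟩ := h2
        refine ⟨L, i1, i2, i3, v, hL, ?_⟩
        rintro p rfl h3
        exact hv _ rfl (h3.trans inf_le_right)
    · right
      obtain ⟨L, i1, i2, i3, v, hL, hv⟩ := h1
      refine ⟨L, i1, i2, i3, v, hL, ?_⟩
      rintro p rfl h3
      exact hv _ rfl (h3.trans inf_le_left)
  | .var i, .var j => by
    by_cases hij : i = j
    · subst hij
      exact Or.inl (fun v => le_refl _)
    · right
      refine ⟨Bool, inferInstance, inferInstance, inferInstance, fun n => decide (n = i),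
        kk_bool, ?_⟩
      rintro p rfl
      show ¬ (decide (i = i)) ≤ decide (j = i)
      rw [decide_eq_true rfl, decide_eq_false (fun h => hij h.symm)]
      decide
  | .var i, .join t1 t2 => by
    rcases holds_or_fail (.var i) t1 with h1 | h1
    · exact Or.inl (fun v => (h1 v).trans le_sup_left)
    · rcases holds_or_fail (.var i) t2 with h2 | h2
      · exact Or.inl (fun v => (h2 v).trans le_sup_right)
      · exact Or.inr (fail_var_join h1 h2)
  | .meet s1 s2, .var j => by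
    rcases holds_or_fail s1 (.var j) with h1 | h1
    · exact Or.inl (fun v => inf_le_left.trans (h1 v))
    · rcases holds_or_fail s2 (.var j) with h2 | h2
      · exact Or.inl (fun v => inf_le_right.trans (h2 v))
      · exact Or.inr (fail_meet_var h1 h2)
  | .meet s1 s2, .join t1 t2 => by
    rcases holds_or_fail s1 (.join t1 t2) with h1 | h1
    · exact Or.inl (fun v => inf_le_left.trans (h1 v))
    · rcases holds_or_fail s2 (.join t1 t2) with h2 | h2
      · exact Or.inl (fun v => inf_le_right.trans (h2 v))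
      · rcases holds_or_fail (.meet s1 s2) t1 with h3 | h3
        · exact Or.inl (fun v => (h3 v).trans le_sup_left)
        · rcases holds_or_fail (.meet s1 s2) t2 with h4 | h4
          · exact Or.inl (fun v => (h4 v).trans le_sup_right)
          · exact Or.inr (fail_meet_join h1 h2 h3 h4)
termination_by s t => sizeOf s + sizeOf t

end Words

end Pool.Agent.Helper57.RG
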