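import Pool.Agent.Helper57.RG.UpGraph
import Pool.Agent.Helper57.RG.Meas

/-!
# Good measures on posets and regular closed families of graphs

For a good measure `μ` on the finite poset `E` with values in `L` there is a lattice homomorphism
from `L` to the lattice of the regular closed families of the graph on the upper sets of `E`.
-/

set_option autoImplicit false

namespace Pool.Agent.Helper57.RG

open Classical

variable {E : Type} [PartialOrder E]

/-- The charge which detects the modular families. -/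
theorem exists_mod_charge [Finite E] [Fintype (Up E)] :
    ∃ q : Up E → ℤ, ∀ X : Set (Up E), chg q X = 0 ↔ Modular X := by
  let d : Up E → Up E → ℤ := fun U W => if W = U then 1 else 0
  let g : Up E × Up E → Up E → ℤ := fun p W =>
    (d p.1 W + d p.2 W) + (-1) * (d (p.1.un p.2) W + d (p.1.it p.2) W)
  obtain ⟨q, hq⟩ := exists_charge
    ((Finset.univ : Finset (Up E × Up E)).toList.map g ++ [d (Up.em E), d (Up.al E)])
  refine ⟨q, fun X => ?_⟩
  have hd : ∀ U : Up E, chg (d U) X = if U ∈ X then 1 else 0 := fun U => chg_single U X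
  have hg : ∀ p : Up E × Up E, chg (g p) X =
      ((if p.1 ∈ X then 1 else 0) + (if p.2 ∈ X then 1 else 0)) +
        (-1) * ((if p.1.un p.2 ∈ X then 1 else 0) + (if p.1.it p.2 ∈ X then 1 else 0)) := by
    intro p
    show chg (fun W => (d p.1 W + d p.2 W) + (-1) * (d (p.1.un p.2) W + d (p.1.it p.2) W)) X = _
    rw [chg_add (fun W => d p.1 W + d p.2 W)
        (fun W => (-1) * (d (p.1.un p.2) W + d (p.1.it p.2) W)),
      chg_mul, chg_add, chg_add, hd, hd, hd, hd]
  rw [hq]
  constructor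
  · intro h
    have h1 : ∀ U W : Up E, ((if U ∈ X then (1 : ℤ) else 0) + (if W ∈ X then 1 else 0)) +
        (-1) * ((if U.un W ∈ X then 1 else 0) + (if U.it W ∈ X then 1 else 0)) = 0 := by
      intro U W
      rw [← hg (U, W)]
      apply h
      apply List.mem_append_left
      exact List.mem_map.2 ⟨(U, W), Finset.mem_toList.2 (Finset.mem_univ _), rfl⟩
    have h2 : (if Up.em E ∈ X then (1 : ℤ) else 0) = 0 := by
      rw [← hd]
      apply h
      apply List.mem_append_right
      exact List.mem_cons_self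
    have h3 : (if Up.al E ∈ X then (1 : ℤ) else 0) = 0 := by
      rw [← hd]
      apply h
      apply List.mem_append_right
      exact List.mem_cons_of_mem _ (List.mem_cons_self)
    refine ⟨?_, ?_, ?_, ?_, ?_⟩
    · intro h4
      rw [if_pos h4] at h2
      omega
    · intro h4
      rw [if_pos h4] at h3
      omega
    · intro U W hU hW
      have h4 := h1 U W
      rw [if_pos hU, if_pos hW] at h4
      by_cases h5 : U.un W ∈ X <;> by_cases h6 : U.it W ∈ X <;> simp [h5, h6] at h4 ⊢
    · intro U W hU hW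
      have h4 := h1 U W
      rw [if_neg hU, if_neg hW] at h4
      by_cases h5 : U.un W ∈ X <;> by_cases h6 : U.it W ∈ X <;> simp [h5, h6] at h4 ⊢
    · intro U W hU hW
      have h4 := h1 U W
      rw [if_pos hU, if_neg hW] at h4
      by_cases h5 : U.un W ∈ X <;> by_cases h6 : U.it W ∈ X <;> simp [h5, h6] at h4 ⊢
  · intro h w hw
    rcases List.mem_append.1 hw with hw | hw
    · obtain ⟨⟨U, W⟩, _, rfl⟩ := List.mem_map.1 hw
      rw [hg]
      by_cases hU : U ∈ X
      · by_cases hW : W ∈ X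
        · have h1 := h.both U W hU hW
          simp [hU, hW, h1.1, h1.2]
        · have h1 := h.one U W hU hW
          by_cases h5 : U.un W ∈ X
          · have h6 := h1.1 h5
            simp [hU, hW, h5, h6]
          · have h6 : U.it W ∈ X := by
              by_contra h7
              exact h5 (h1.2 h7)
            simp [hU, hW, h5, h6]
      · by_cases hW : W ∈ X
        · have h1 := h.one W U hW hU
          have e1 : W.un U = U.un W := Subtype.ext (Set.union_comm _ _)
          have e2 : W.it U = U.it W := Subtype.ext (Set.inter_comm _ _)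
          rw [e1, e2] at h1
          by_cases h5 : U.un W ∈ X
          · have h6 := h1.1 h5
            simp [hU, hW, h5, h6]
          · have h6 : U.it W ∈ X := by
              by_contra h7
              exact h5 (h1.2 h7)
            simp [hU, hW, h5, h6]
        · have h1 := h.none U W hU hW
          simp [hU, hW, h1.1, h1.2]
    · rcases List.mem_cons.1 hw with rfl | hw
      · rw [hd, if_neg h.em]
      · rcases List.mem_cons.1 hw with rfl | hw
        · rw [hd, if_neg h.al]
        · simp at hw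

theorem compose_aux {x y x' y' x'' y'' : E} (h : x < y) (h' : x' < y') (h'' : x'' < y'')
    (hd : Disjoint (iv x y) (iv x' y')) (hu : iv x'' y'' = iv x y ∪ iv x' y')
    (hy : y'' ≤ y') : y = x' ∧ x'' = x ∧ y'' = y' := by
  have hmem : ∀ U : Up E, (y'' ∈ U.1 ∧ x'' ∉ U.1) ↔
      ((y ∈ U.1 ∧ x ∉ U.1) ∨ (y' ∈ U.1 ∧ x' ∉ U.1)) := by
    intro U
    have h1 : U ∈ iv x'' y'' ↔ U ∈ iv x y ∪ iv x' y' := by rw [hu]
    exact h1
  have hdis : ∀ U : Up E, y ∈ U.1 → x ∉ U.1 → y' ∈ U.1 → x' ∉ U.1 → False := by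
    intro U h1 h2 h3 h4
    exact Set.disjoint_left.1 hd (show U ∈ iv x y from ⟨h1, h2⟩) (show U ∈ iv x' y' from ⟨h3, h4⟩)
  have hyy : y'' = y' := by
    apply le_antisymm hy
    exact ((hmem (pri y')).2 (Or.inr (pri_mem_iv h'))).1
  subst hyy
  -- the top element
  rcases (hmem (nle x'')).1 (nle_mem_iv h'') with h1 | h1
  · have h2 : x ≤ x'' := by
      by_contra h3
      exact h1.2 h3
    have h4 : x'' ≤ x := by
      have h5 := ((hmem (nle x)).2 (Or.inl (nle_mem_iv h))).2
      by_contra h6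
      exact h5 h6
    have hxx : x'' = x := le_antisymm h4 h2
    subst hxx
    refine ⟨?_, rfl, rfl⟩
    have h5 := (hmem (pri y)).2 (Or.inl (pri_mem_iv h))
    have h6 : y ≤ x' := by
      by_contra h7
      exact hdis (pri y) (le_refl y) (pri_mem_iv h).2 h5.1 h7
    apply le_antisymm h6
    have h7 : x'' ∉ (pri x').1 := fun h8 => absurd (lt_of_lt_of_le h (h6.trans h8)) (lt_irrefl _)
    rcases (hmem (pri x')).1 ⟨h'.le, h7⟩ with h8 | h8
    · exact h8.1
    · exact absurd (le_refl x') h8.2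
  · exfalso
    have h2 : x' ≤ x'' := by
      by_contra h3
      exact h1.2 h3
    have h4 : x'' ≤ x' := by
      have h5 := ((hmem (nle x')).2 (Or.inr (nle_mem_iv h'))).2
      by_contra h6
      exact h5 h6
    have hxx : x'' = x' := le_antisymm h4 h2
    subst hxx
    have h5 := (hmem (pri y)).2 (Or.inl (pri_mem_iv h))
    exact hdis (pri y) (le_refl y) (pri_mem_iv h).2 h5.1 h5.2

/-- If two of our sets are disjoint and their union is one of our sets, then they are the sets of
two pairs `x < y` and `y < z` and the union is the set of `x < z`. -/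
theorem compose {x y x' y' x'' y'' : E} (h : x < y) (h' : x' < y') (h'' : x'' < y'')
    (hd : Disjoint (iv x y) (iv x' y')) (hu : iv x'' y'' = iv x y ∪ iv x' y') :
    (y = x' ∧ x'' = x ∧ y'' = y') ∨ (y' = x ∧ x'' = x' ∧ y'' = y) := by
  have h1 : pri y'' ∈ iv x y ∪ iv x' y' := by
    rw [← hu]
    exact pri_mem_iv h''
  rcases h1 with h1 | h1
  · right
    exact compose_aux h' h h'' hd.symm (by rw [hu, Set.union_comm]) h1.1
  · left
    exact compose_aux h h' h'' hd hu h1.1

theorem iv_inj {x y x' y' : E} (h : x < y) (h' : x' < y') (he : iv x y = iv x' y') :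
    x = x' ∧ y = y' := by
  have h1 : pri y ∈ iv x' y' := he ▸ pri_mem_iv h
  have h2 : pri y' ∈ iv x y := he ▸ pri_mem_iv h'
  have h3 : nle x ∈ iv x' y' := he ▸ nle_mem_iv h
  have h4 : nle x' ∈ iv x y := he ▸ nle_mem_iv h'
  refine ⟨le_antisymm ?_ ?_, le_antisymm h1.1 h2.1⟩
  · by_contra h5
    exact h4.2 h5
  · by_contra h5
    exact h3.2 h5

theorem iv_disjoint {x y z : E} : Disjoint (iv x y) (iv y z) := by
  rw [Set.disjoint_left]
  rintro U h1 h2
  exact h2.2 h1.1

theorem iv_union {x y z : E} (h : x < y) (h' : y < z) : iv x z = iv x y ∪ iv y z := by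
  ext U
  constructor
  · rintro ⟨h1, h2⟩
    by_cases h3 : y ∈ U.1
    · exact Or.inl ⟨h3, h2⟩
    · exact Or.inr ⟨h1, h3⟩
  · rintro (⟨h1, h2⟩ | ⟨h1, h2⟩)
    · exact ⟨U.2 h'.le h1, h2⟩
    · exact ⟨h1, fun h3 => h2 (U.2 h.le h3)⟩

section Hom

open Relation

variable [Finite E] [Fintype (Up E)] {L : Type} [Lattice L] [OrderBot L] {μ : E → E → L}
  {q : Up E → ℤ}

/-- The family of level `c`. -/
def fam (q : Up E → ℤ) (μ : E → E → L) (c : L) : Set (So (upGraph E)) :=
  {X | chg q X.1 < 0 ∨ ∃ x y : E, x < y ∧ X.1 = iv x y ∧ μ x y ≤ c}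

theorem so_zero (hq : ∀ X : Set (Up E), chg q X = 0 ↔ Modular X) (X : So (upGraph E))
    (h : chg q X.1 = 0) : ∃ x y : E, x < y ∧ X.1 = iv x y :=
  classify ((hq _).1 h) X.2.1 X.2.2

theorem iv_zero (hq : ∀ X : Set (Up E), chg q X = 0 ↔ Modular X) {x y : E} (h : x < y) :
    chg q (iv x y) = 0 := (hq _).2 (modular_iv h)

theorem fam_closed (hq : ∀ X : Set (Up E), chg q X = 0 ↔ Modular X) (hμ : Good L E μ) (c : L) :
    IsClosedFamily (upGraph E) (fam q μ c) := by
  intro X hX Y hY hd Z hZ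
  have hc : chg q Z.1 = chg q X.1 + chg q Y.1 := by rw [hZ, chg_union q hd]
  rcases hX with hX | ⟨x, y, hxy, hX, hXc⟩ <;> rcases hY with hY | ⟨x', y', hxy', hY, hYc⟩
  · left
    omega
  · left
    have h0 := iv_zero hq hxy'
    rw [← hY] at h0
    omega
  · left
    have h0 := iv_zero hq hxy
    rw [← hX] at h0
    omega
  · right
    have h0 := iv_zero hq hxy
    have h0' := iv_zero hq hxy'
    rw [← hX] at h0
    rw [← hY] at h0'
    obtain ⟨x'', y'', hxy'', hZ'⟩ := so_zero hq Z (by omega)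
    refine ⟨x'', y'', hxy'', hZ', ?_⟩
    rw [hX, hY] at hd hZ
    rw [hZ'] at hZ
    rcases compose hxy hxy' hxy'' hd hZ with ⟨rfl, rfl, rfl⟩ | ⟨rfl, rfl, rfl⟩
    · exact (hμ.tri _ _ _ hxy.le hxy'.le).trans (sup_le hXc hYc)
    · exact (hμ.tri _ _ _ hxy'.le hxy.le).trans (sup_le hYc hXc)

theorem fam_compl_closed (hq : ∀ X : Set (Up E), chg q X = 0 ↔ Modular X) (hμ : Good L E μ)
    (c : L) : IsClosedFamily (upGraph E) (fam q μ c)ᶜ := by
  intro X hX Y hY hd Z hZ hZc
  have hc : chg q Z.1 = chg q X.1 + chg q Y.1 := by rw [hZ, chg_union q hd]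
  have hX0 : 0 ≤ chg q X.1 := by
    by_contra h
    exact hX (Or.inl (by omega))
  have hY0 : 0 ≤ chg q Y.1 := by
    by_contra h
    exact hY (Or.inl (by omega))
  rcases hZc with hZc | ⟨x'', y'', hxy'', hZ', hZc⟩
  · omega
  · have h0 := iv_zero hq hxy''
    rw [← hZ'] at h0
    obtain ⟨x, y, hxy, hX'⟩ := so_zero hq X (by omega)
    obtain ⟨x', y', hxy', hY'⟩ := so_zero hq Y (by omega)
    rw [hX', hY'] at hd hZ
    rw [hZ'] at hZ
    rcases compose hxy hxy' hxy'' hd hZ with ⟨rfl, rfl, rfl⟩ | ⟨rfl, rfl, rfl⟩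
    · exact hY (Or.inr ⟨_, _, hxy', hY', (hμ.right _ _ _ hxy.le hxy'.le).trans hZc⟩)
    · exact hX (Or.inr ⟨_, _, hxy, hX', (hμ.right _ _ _ hxy'.le hxy.le).trans hZc⟩)

theorem fam_interior (hq : ∀ X : Set (Up E), chg q X = 0 ↔ Modular X) (hμ : Good L E μ)
    (c : L) : interior (upGraph E) (fam q μ c) = fam q μ c := by
  unfold interior
  rw [cl_of_closed _ (fam_compl_closed hq hμ c), compl_compl]

/-- The homomorphism. -/
def hom (hq : ∀ X : Set (Up E), chg q X = 0 ↔ Modular X) (hμ : Good L E μ) (c : L) :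
    R (upGraph E) :=
  ⟨fam q μ c, by rw [fam_interior hq hμ, cl_of_closed _ (fam_closed hq hμ c)]⟩

theorem fam_mono {c d : L} (h : c ≤ d) : fam q μ c ⊆ fam q μ d := by
  rintro X (hX | ⟨x, y, hxy, hX, hXc⟩)
  · exact Or.inl hX
  · exact Or.inr ⟨x, y, hxy, hX, hXc.trans h⟩

theorem hom_sup (hq : ∀ X : Set (Up E), chg q X = 0 ↔ Modular X) (hμ : Good L E μ) (c d : L) :
    hom hq hμ (c ⊔ d) = hom hq hμ c ⊔ hom hq hμ d := by
  apply Subtype.ext
  show fam q μ (c ⊔ d) = cl (upGraph E) (fam q μ c ∪ fam q μ d)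
  apply Set.Subset.antisymm
  · rintro X (hX | ⟨x, y, hxy, hX, hXc⟩)
    · exact sub_cl _ _ (Or.inl (Or.inl hX))
    · have key : ∀ z : E, TransGen (fun s t => s < t ∧ (μ s t ≤ c ∨ μ s t ≤ d)) x z →
          ∃ h : x < z, ivS h ∈ cl (upGraph E) (fam q μ c ∪ fam q μ d) := by
        intro z hz
        have hone : ∀ {s t : E} (hst : s < t), (μ s t ≤ c ∨ μ s t ≤ d) →
            ivS hst ∈ cl (upGraph E) (fam q μ c ∪ fam q μ d) := by
          intro s t hst h1
          apply sub_cl
          rcases h1 with h1 | h1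
          · exact Or.inl (Or.inr ⟨s, t, hst, rfl, h1⟩)
          · exact Or.inr (Or.inr ⟨s, t, hst, rfl, h1⟩)
        induction hz with
        | single h1 => exact ⟨h1.1, hone h1.1 h1.2⟩
        | tail _ h2 ih =>
          obtain ⟨h3, h4⟩ := ih
          refine ⟨h3.trans h2.1, ?_⟩
          exact cl_closed (upGraph E) _ _ h4 _ (hone h2.1 h2.2) iv_disjoint _
            (iv_union h3 h2.1)
      obtain ⟨h1, h2⟩ := key y (hμ.ref x y hxy c d hXc)
      have h3 : X = ivS h1 := Subtype.ext hX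
      rw [h3]
      exact h2
  · exact cl_sub _ (fam_closed hq hμ _)
      (Set.union_subset (fam_mono le_sup_left) (fam_mono le_sup_right))

theorem hom_inf (hq : ∀ X : Set (Up E), chg q X = 0 ↔ Modular X) (hμ : Good L E μ) (c d : L) :
    hom hq hμ (c ⊓ d) = hom hq hμ c ⊓ hom hq hμ d := by
  apply Subtype.ext
  show fam q μ (c ⊓ d) = cl (upGraph E) (interior (upGraph E) (fam q μ c ∩ fam q μ d))
  have h : fam q μ c ∩ fam q μ d = fam q μ (c ⊓ d) := by
    ext X
    constructor
    · rintro ⟨h1, h2⟩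
      rcases h1 with h1 | ⟨x, y, hxy, hX, h1⟩
      · exact Or.inl h1
      · rcases h2 with h2 | ⟨x', y', hxy', hX', h2⟩
        · exact Or.inl h2
        · right
          obtain ⟨rfl, rfl⟩ := iv_inj hxy hxy' (hX.symm.trans hX')
          exact ⟨x, y, hxy, hX, le_inf h1 h2⟩
    · intro h1
      exact ⟨fam_mono inf_le_left h1, fam_mono inf_le_right h1⟩
  rw [h, fam_interior hq hμ, cl_of_closed _ (fam_closed hq hμ _)]

end Hom

/-- An inequality which fails in a lattice with enough strict values of good measures fails in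
some `R(G)`. -/
theorem graph_of_fail {s t : LTerm} (h : Fail {(s, t)}) :
    ∃ (V : Type) (_ : Finite V) (G : SimpleGraph V) (v : ℕ → R G),
      ¬ s.eval v ≤ t.eval v := by
  obtain ⟨L, _, _, _, v, hL, hv⟩ := h
  obtain ⟨g, ⟨E, _, hfin, μ, x, y, hμ, hxy, hval, _⟩, hg2, hg3⟩ := hL _ _ (hv _ rfl)
  have hfin' : Fintype (Up E) := Fintype.ofFinite _
  obtain ⟨q, hq⟩ := exists_mod_charge (E := E)
  refine ⟨Up E, inferInstance, upGraph E, fun n => hom hq hμ (v n), ?_⟩
  rw [← eval_map (hom hq hμ) (hom_sup hq hμ) (hom_inf hq hμ),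
    ← eval_map (hom hq hμ) (hom_sup hq hμ) (hom_inf hq hμ)]
  intro h
  have h2 : ivS hxy ∈ fam q μ (s.eval v) := Or.inr ⟨x, y, hxy, rfl, by rw [hval]; exact hg2⟩
  have h3 : ivS hxy ∈ fam q μ (t.eval v) := h h2
  apply hg3
  rw [← hval]
  rcases h3 with h3 | ⟨x', y', hxy', hX, h4⟩
  · exact absurd (iv_zero hq hxy) (ne_of_lt h3)
  · obtain ⟨rfl, rfl⟩ := iv_inj hxy hxy' hX
    exact h4

end Pool.Agent.Helper57.RG
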