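import Mathlib.Order.UpperLower.Basic
import Mathlib.Data.Set.Finite.Lattice
import Mathlib.Data.Set.Card
import Mathlib.Order.Preorder.Finite
import Mathlib.Tactic.Tauto
import Pool.Agent.Helper57.RG.Defs
import Pool.Agent.Helper57.RG.Charge

/-!
# The graph on the upper sets of a finite poset

Two different upper sets `U, W` are adjacent if every non-minimal element of `U` belongs to `W` and
every non-minimal element of `W` belongs to `U`.
-/

set_option autoImplicit false

namespace Pool.Agent.Helper57.RG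

open Classical

variable (E : Type) [PartialOrder E]

/-- The upper sets. -/
def Up : Type := {U : Set E // IsUpperSet U}

variable {E}

instance [Finite E] : Finite (Up E) := by
  unfold Up
  infer_instance

/-- every non-minimal element of `U` belongs to `W` -/
def Near (U W : Set E) : Prop := ∀ y ∈ U, ∀ x, y < x → x ∈ W

variable (E) in
/-- The graph on the upper sets. -/
def upGraph : SimpleGraph (Up E) where
  Adj U W := U ≠ W ∧ Near U.1 W.1 ∧ Near W.1 U.1
  symm := ⟨fun _ _ h => ⟨h.1.symm, h.2.2, h.2.1⟩⟩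
  loopless := ⟨fun _ h => h.1 rfl⟩

/-- The principal upper set. -/
def pri (x : E) : Up E := ⟨{y | x ≤ y}, fun _ _ h1 h2 => le_trans h2 h1⟩

/-- The upper set of the elements which are not below `x`. -/
def nle (x : E) : Up E := ⟨{y | ¬ y ≤ x}, fun _ _ h1 h2 h3 => h2 (le_trans h1 h3)⟩

/-- Union and intersection. -/
def Up.un (U W : Up E) : Up E := ⟨U.1 ∪ W.1, U.2.union W.2⟩
def Up.it (U W : Up E) : Up E := ⟨U.1 ∩ W.1, U.2.inter W.2⟩
variable (E) in
def Up.em : Up E := ⟨∅, isUpperSet_empty⟩
variable (E) in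
def Up.al : Up E := ⟨Set.univ, isUpperSet_univ⟩

/-- The set of vertices which belongs to the pair `x < y`. -/
def iv (x y : E) : Set (Up E) := {U | y ∈ U.1 ∧ x ∉ U.1}

theorem pri_mem_iv {x y : E} (h : x < y) : pri y ∈ iv x y :=
  ⟨le_refl y, fun h2 => absurd (lt_of_lt_of_le h h2) (lt_irrefl _)⟩

theorem nle_mem_iv {x y : E} (h : x < y) : nle x ∈ iv x y :=
  ⟨fun h2 => absurd (lt_of_lt_of_le h h2) (lt_irrefl _), fun h2 => h2 (le_refl x)⟩

/-- The modular families. -/
structure Modular (X : Set (Up E)) : Prop where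
  em : Up.em E ∉ X
  al : Up.al E ∉ X
  both : ∀ U W : Up E, U ∈ X → W ∈ X → U.un W ∈ X ∧ U.it W ∈ X
  none : ∀ U W : Up E, U ∉ X → W ∉ X → U.un W ∉ X ∧ U.it W ∉ X
  one : ∀ U W : Up E, U ∈ X → W ∉ X → (U.un W ∈ X ↔ U.it W ∉ X)

theorem modular_iv {x y : E} (h : x < y) : Modular (iv x y) := by
  have hm : ∀ U : Up E, x ∈ U.1 → y ∈ U.1 := fun U hU => U.2 h.le hU
  refine ⟨fun h1 => h1.1, fun h1 => h1.2 trivial, ?_, ?_, ?_⟩
  · rintro U W ⟨h1, h2⟩ ⟨h3, h4⟩
    exact ⟨⟨Or.inl h1, fun h5 => h5.elim h2 h4⟩, ⟨⟨h1, h3⟩, fun h5 => h2 h5.1⟩⟩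
  · intro U W h1 h2
    have a1 := hm U
    have a2 := hm W
    simp only [iv, Set.mem_ofPred_eq, Up.un, Up.it, Set.mem_union, Set.mem_inter_iff] at *
    tauto
  · intro U W h1 h2
    have a1 := hm U
    have a2 := hm W
    simp only [iv, Set.mem_ofPred_eq, Up.un, Up.it, Set.mem_union, Set.mem_inter_iff] at *
    tauto

section Finite

variable [Finite E]

theorem iv_connected {x y : E} (h : x < y) : ((upGraph E).induce (iv x y)).Connected := by
  have key : ∀ n : ℕ, ∀ U : Up E, (hU : U ∈ iv x y) → ((nle x).1 \ U.1).ncard = n →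
      ((upGraph E).induce (iv x y)).Reachable ⟨U, hU⟩ ⟨nle x, nle_mem_iv h⟩ := by
    intro n
    induction n with
    | zero =>
      intro U hU hn
      have h1 : (nle x).1 \ U.1 = ∅ := (Set.ncard_eq_zero (Set.toFinite _)).1 hn
      have h2 : U = nle x := by
        apply Subtype.ext
        apply Set.Subset.antisymm
        · intro z hz hzx
          exact hU.2 (U.2 hzx hz)
        · exact Set.sdiff_eq_empty.1 h1
      subst h2
      exact SimpleGraph.Reachable.refl _
    | succ n ih =>
      intro U hU hn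
      have hne : ((nle x).1 \ U.1).Nonempty := by
        rw [← Set.ncard_pos (Set.toFinite _), hn]
        exact Nat.succ_pos n
      obtain ⟨z, hz⟩ := (Set.toFinite ((nle x).1 \ U.1)).exists_maximal hne
      have hz1 : ¬ z ≤ x := hz.prop.1
      have hz2 : z ∉ U.1 := hz.prop.2
      have hup : ∀ w, z < w → w ∈ U.1 := by
        intro w hw
        by_contra hwU
        have h3 : w ∈ (nle x).1 \ U.1 := ⟨fun h4 => hz1 (hw.le.trans h4), hwU⟩
        exact absurd hw (not_lt_of_ge (hz.le_of_ge h3 hw.le))
      have hW : IsUpperSet (insert z U.1) := by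
        intro a b hab ha
        rcases ha with rfl | ha
        · rcases eq_or_lt_of_le hab with rfl | hlt
          · exact Or.inl rfl
          · exact Or.inr (hup b hlt)
        · exact Or.inr (U.2 hab ha)
      let W : Up E := ⟨insert z U.1, hW⟩
      have hWiv : W ∈ iv x y := by
        refine ⟨Or.inr hU.1, ?_⟩
        rintro (rfl | h3)
        · exact hz1 (le_refl _)
        · exact hU.2 h3
      have hcard : ((nle x).1 \ W.1).ncard = n := by
        have h3 : (nle x).1 \ W.1 = ((nle x).1 \ U.1) \ {z} := by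
          ext a
          simp only [W, Set.mem_sdiff, Set.mem_insert_iff, Set.mem_singleton_iff]
          tauto
        rw [h3, Set.ncard_sdiff_singleton_of_mem hz.prop, hn]
        rfl
      have hadj : ((upGraph E).induce (iv x y)).Adj ⟨U, hU⟩ ⟨W, hWiv⟩ := by
        refine ⟨?_, ?_, ?_⟩
        · intro h3
          have h4 : z ∈ U.1 := by
            have h5 : U = W := h3
            rw [h5]
            exact Or.inl rfl
          exact hz2 h4
        · intro a ha b hab
          exact Or.inr (U.2 hab.le ha)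
        · rintro a (rfl | ha) b hab
          · exact hup b hab
          · exact U.2 hab.le ha
      exact hadj.reachable.trans (ih W hWiv hcard)
  have : Nonempty (iv x y) := ⟨⟨nle x, nle_mem_iv h⟩⟩
  refine ⟨?_⟩
  rintro ⟨U, hU⟩ ⟨W, hW⟩
  exact (key _ U hU rfl).trans (key _ W hW rfl).symm

/-- The connected vertex set of a pair `x < y`. -/
def ivS {x y : E} (h : x < y) : So (upGraph E) :=
  ⟨iv x y, ⟨pri y, pri_mem_iv h⟩, iv_connected h⟩

/-- The connected modular families are the families of the pairs. -/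
theorem classify {X : Set (Up E)} (hX : Modular X) (hne : X.Nonempty)
    (hc : ((upGraph E).induce X).Connected) : ∃ x y : E, x < y ∧ X = iv x y := by
  -- the least element of `X` is principal
  obtain ⟨f, hf, hfmin⟩ : ∃ f : E, pri f ∈ X ∧ ∀ U ∈ X, f ∈ U.1 := by
    obtain ⟨S, hS⟩ := (Set.toFinite {A : Set E | ∃ U ∈ X, U.1 = A}).exists_minimal
      (by obtain ⟨U, hU⟩ := hne; exact ⟨U.1, U, hU, rfl⟩)
    obtain ⟨U1, hU1, rfl⟩ := hS.prop
    have hmin : ∀ U ∈ X, U1.1 ⊆ U.1 := by
      intro U hU
      have h1 := (hX.both U U1 hU hU1).2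
      have h2 : U1.1 ⊆ U.1 ∩ U1.1 := hS.le_of_le ⟨_, h1, rfl⟩ Set.inter_subset_right
      exact h2.trans Set.inter_subset_left
    by_contra hcon
    push Not at hcon
    have hall : ∀ z ∈ U1.1, pri z ∉ X := by
      intro z hz hzX
      obtain ⟨U, hU, hzU⟩ := hcon z hzX
      exact hzU (hmin U hU hz)
    have hun : ∀ s : Set E, s.Finite → s ⊆ U1.1 →
        ∀ W : Up E, W.1 = {a | ∃ z ∈ s, z ≤ a} → W ∉ X := by
      intro s hs
      induction s, hs using Set.Finite.induction_on with
      | empty =>
        intro _ W hW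
        have h3 : W = Up.em E := by
          apply Subtype.ext
          rw [hW]
          ext a
          simp [Up.em]
        rw [h3]
        exact hX.em
      | @insert z s _ _ ih =>
        intro hsub W hW
        let W' : Up E := ⟨{a | ∃ z ∈ s, z ≤ a}, by
          rintro a b hab ⟨c, hc1, hc2⟩
          exact ⟨c, hc1, hc2.trans hab⟩⟩
        have h3 : W' ∉ X := ih (fun a ha => hsub (Set.mem_insert_of_mem _ ha)) W' rfl
        have h4 := (hX.none W' (pri z) h3 (hall z (hsub (Set.mem_insert _ _)))).1
        have h5 : W = W'.un (pri z) := by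
          apply Subtype.ext
          rw [hW]
          ext a
          simp only [Set.mem_insert_iff, Set.mem_ofPred_eq, Up.un, W', pri, Set.mem_union]
          constructor
          · rintro ⟨c, rfl | hc1, hc2⟩
            · exact Or.inr hc2
            · exact Or.inl ⟨c, hc1, hc2⟩
          · rintro (⟨c, hc1, hc2⟩ | h6)
            · exact ⟨c, Or.inr hc1, hc2⟩
            · exact ⟨z, Or.inl rfl, h6⟩
        rw [h5]
        exact h4
    refine hun U1.1 (Set.toFinite _) (Set.Subset.refl _) U1 ?_ hU1
    ext a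
    constructor
    · intro ha
      exact ⟨a, ha, le_refl _⟩
    · rintro ⟨z, hz, hza⟩
      exact U1.2 hza hz
  -- the least upper set outside of `X` which contains `f`
  obtain ⟨e, he, hemin⟩ : ∃ e : E, (pri f).un (pri e) ∉ X ∧
      ∀ U : Up E, f ∈ U.1 → e ∉ U.1 → U ∈ X := by
    obtain ⟨S, hS⟩ := (Set.toFinite {A : Set E | ∃ U : Up E, f ∈ U.1 ∧ U ∉ X ∧ U.1 = A}).exists_minimal
      ⟨Set.univ, Up.al E, trivial, hX.al, rfl⟩
    obtain ⟨K, hfK, hK, rfl⟩ := hS.prop
    have hmin : ∀ U : Up E, f ∈ U.1 → U ∉ X → K.1 ⊆ U.1 := by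
      intro U hfU hU
      have h1 := (hX.none U K hU hK).2
      have h2 : K.1 ⊆ U.1 ∩ K.1 := hS.le_of_le ⟨U.it K, ⟨hfU, hfK⟩, h1, rfl⟩
        Set.inter_subset_right
      exact h2.trans Set.inter_subset_left
    have hex : ∃ e ∈ K.1, (pri f).un (pri e) ∉ X := by
      by_contra hcon
      push Not at hcon
      have hun : ∀ s : Set E, s.Finite → s ⊆ K.1 →
          ∀ W : Up E, W.1 = {a | f ≤ a ∨ ∃ z ∈ s, z ≤ a} → W ∈ X := by
        intro s hs
        induction s, hs using Set.Finite.induction_on with
        | empty =>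
          intro _ W hW
          have h3 : W = pri f := by
            apply Subtype.ext
            rw [hW]
            ext a
            simp [pri]
          rw [h3]
          exact hf
        | @insert z s _ _ ih =>
          intro hsub W hW
          let W' : Up E := ⟨{a | f ≤ a ∨ ∃ z ∈ s, z ≤ a}, by
            rintro a b hab (h6 | ⟨c, hc1, hc2⟩)
            · exact Or.inl (h6.trans hab)
            · exact Or.inr ⟨c, hc1, hc2.trans hab⟩⟩
          have h3 : W' ∈ X := ih (fun a ha => hsub (Set.mem_insert_of_mem _ ha)) W' rfl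
          have h4 := (hX.both W' _ h3 (hcon z (hsub (Set.mem_insert _ _)))).1
          have h5 : W = W'.un ((pri f).un (pri z)) := by
            apply Subtype.ext
            rw [hW]
            ext a
            simp only [Set.mem_insert_iff, Set.mem_ofPred_eq, Up.un, W', pri, Set.mem_union]
            constructor
            · rintro (h6 | ⟨c, rfl | hc1, hc2⟩)
              · exact Or.inl (Or.inl h6)
              · exact Or.inr (Or.inr hc2)
              · exact Or.inl (Or.inr ⟨c, hc1, hc2⟩)
            · rintro ((h6 | ⟨c, hc1, hc2⟩) | (h6 | h6))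
              · exact Or.inl h6
              · exact Or.inr ⟨c, Or.inr hc1, hc2⟩
              · exact Or.inl h6
              · exact Or.inr ⟨z, Or.inl rfl, h6⟩
          rw [h5]
          exact h4
      refine hK (hun K.1 (Set.toFinite _) (Set.Subset.refl _) K ?_)
      ext a
      constructor
      · intro ha
        exact Or.inr ⟨a, ha, le_refl _⟩
      · rintro (h6 | ⟨z, hz, hza⟩)
        · exact K.2 h6 hfK
        · exact K.2 hza hz
    obtain ⟨e, heK, he⟩ := hex
    refine ⟨e, he, fun U hfU heU => ?_⟩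
    by_contra hU
    exact heU (hmin U hfU hU heK)
  have heX : pri e ∉ X := by
    intro h1
    exact he (hX.both _ _ hf h1).1
  have hef : e < f := by
    have h1 : (pri f).it (pri e) ∈ X := by
      by_contra h2
      exact he ((hX.one _ _ hf heX).2 h2)
    have h2 : e ≤ f := (hfmin _ h1).2
    refine lt_of_le_of_ne h2 ?_
    rintro rfl
    apply he
    have h3 : (pri e).un (pri e) = pri e := Subtype.ext (Set.union_self _)
    rw [h3]
    exact hf
  -- a vertex of `X` which contains `e` cannot be adjacent to a vertex of `iv e f`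
  have hstep : ∀ U W : Up E, e ∉ U.1 → W ∈ X → Near W.1 U.1 → e ∉ W.1 := by
    intro U W heU hW hnear heW
    have hmin : ∀ a ∈ W.1, ¬ a < e := fun a ha hae => heU (hnear a ha e hae)
    have hW'up : IsUpperSet (W.1 \ {e}) := by
      rintro a b hab ⟨ha, hae⟩
      refine ⟨W.2 hab ha, ?_⟩
      rintro rfl
      rcases eq_or_lt_of_le hab with rfl | hlt
      · exact hae rfl
      · exact hmin a ha hlt
    have hAup : IsUpperSet ((pri e).1 \ {e}) := by
      rintro a b hab ⟨ha, hae⟩
      refine ⟨(pri e).2 hab ha, ?_⟩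
      rintro rfl
      exact hae (le_antisymm hab ha)
    have hW' : (⟨W.1 \ {e}, hW'up⟩ : Up E) ∈ X :=
      hemin _ ⟨hfmin W hW, fun h => hef.ne h.symm⟩ (fun h => h.2 rfl)
    have hA : (⟨(pri e).1 \ {e}, hAup⟩ : Up E) ∈ X :=
      hemin _ ⟨hef.le, fun h => hef.ne h.symm⟩ (fun h => h.2 rfl)
    have h1 := hX.one _ _ hW' heX
    have h2 : Up.un (⟨W.1 \ {e}, hW'up⟩ : Up E) (pri e) = W := by
      apply Subtype.ext
      ext a
      simp only [Up.un, Set.mem_union, Set.mem_sdiff, Set.mem_singleton_iff]
      constructor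
      · rintro (h3 | h3)
        · exact h3.1
        · exact W.2 h3 heW
      · intro h3
        by_cases hae : a = e
        · right
          rw [hae]
          exact le_refl e
        · exact Or.inl ⟨h3, hae⟩
    have h3 : Up.it (⟨W.1 \ {e}, hW'up⟩ : Up E) (pri e) = ⟨(pri e).1 \ {e}, hAup⟩ := by
      apply Subtype.ext
      ext a
      simp only [Up.it, Set.mem_inter_iff, Set.mem_sdiff, Set.mem_singleton_iff]
      constructor
      · rintro ⟨⟨_, h4⟩, h5⟩
        exact ⟨h5, h4⟩
      · rintro ⟨h4, h5⟩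
        exact ⟨⟨W.2 h4 heW, h5⟩, h4⟩
    rw [h2, h3] at h1
    exact h1.1 hW hA
  refine ⟨e, f, hef, ?_⟩
  apply Set.Subset.antisymm
  · intro W hW
    refine ⟨hfmin W hW, ?_⟩
    have hr := hc.preconnected ⟨pri f, hf⟩ ⟨W, hW⟩
    rw [SimpleGraph.reachable_iff_reflTransGen] at hr
    have hind : ∀ Z : X, Relation.ReflTransGen ((upGraph E).induce X).Adj ⟨pri f, hf⟩ Z →
        e ∉ Z.1.1 := by
      intro Z hZ
      induction hZ with
      | refl => exact fun h => absurd (lt_of_lt_of_le hef h) (lt_irrefl _)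
      | @tail A B _ hAB ih => exact hstep A.1 B.1 ih B.2 hAB.2.2
    exact hind _ hr
  · rintro U ⟨h1, h2⟩
    exact hemin U h1 h2

end Finite

end Pool.Agent.Helper57.RG
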